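import Mathlib

/-!
# Involutive commutative residuated lattices and their l-bimonoidal subreducts: definitions
-/

namespace Pool.Agent.Helper48.Knotted

universe u

/-- An involutive commutative residuated lattice: a lattice, a commutative monoid, a residual
`imp` with `x * y ≤ z ↔ y ≤ imp x z`, and a constant `fal` (written `0` in the problem) such that
`neg (neg x) = x`, where `neg x = imp x fal`. -/
class InCRL (A : Type u) extends Lattice A, CommMonoid A where
  /-- the residual `x → z` -/
  imp : A → A → A
  /-- the constant `0` -/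
  fal : A
  /-- residuation -/
  mul_le_iff : ∀ x y z : A, x * y ≤ z ↔ y ≤ imp x z
  /-- involutivity -/
  imp_imp_fal : ∀ x : A, imp (imp x fal) fal = x

/-- The involution `¬ x = x → 0`. -/
def neg {A : Type u} [InCRL A] (x : A) : A := InCRL.imp x InCRL.fal

/-- `x + y = ¬ (¬ x * ¬ y)`. -/
def plus {A : Type u} [InCRL A] (x y : A) : A := neg (neg x * neg y)

/-- Algebras of the signature `(∧, ∨, ·, +, 1, 0)` with carrier `A`. -/
structure BiAlg (A : Type u) where
  /-- meet -/
  inf : A → A → A
  /-- join -/
  sup : A → A → A
  /-- product -/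
  mul : A → A → A
  /-- sum -/
  add : A → A → A
  /-- the constant `1` -/
  one : A
  /-- the constant `0` -/
  zero : A

/-- The l-bimonoidal reduct of an involutive commutative residuated lattice. -/
def reduct (A : Type u) [InCRL A] : BiAlg A where
  inf x y := x ⊓ y
  sup x y := x ⊔ y
  mul x y := x * y
  add x y := plus x y
  one := 1
  zero := InCRL.fal

/-- Homomorphisms of algebras of the signature `(∧, ∨, ·, +, 1, 0)`. -/
structure IsHom {A B : Type u} (a : BiAlg A) (b : BiAlg B) (f : A → B) : Prop where
  map_inf : ∀ x y, f (a.inf x y) = b.inf (f x) (f y)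
  map_sup : ∀ x y, f (a.sup x y) = b.sup (f x) (f y)
  map_mul : ∀ x y, f (a.mul x y) = b.mul (f x) (f y)
  map_add : ∀ x y, f (a.add x y) = b.add (f x) (f y)
  map_one : f a.one = b.one
  map_zero : f a.zero = b.zero

/-- The direct product of a family of algebras. -/
def BiAlg.pi {I : Type u} {A : I → Type u} (a : ∀ i, BiAlg (A i)) : BiAlg (∀ i, A i) where
  inf x y := fun i => (a i).inf (x i) (y i)
  sup x y := fun i => (a i).sup (x i) (y i)
  mul x y := fun i => (a i).mul (x i) (y i)
  add x y := fun i => (a i).add (x i) (y i)
  one := fun i => (a i).one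
  zero := fun i => (a i).zero

/-- The algebra `a` is isomorphic to a subalgebra of the l-bimonoidal reduct of a member of the
knotted variety of involutive commutative residuated lattices axiomatized by `x ^ m ≤ x ^ n`. -/
def IsSubreduct (m n : ℕ) {A : Type u} (a : BiAlg A) : Prop :=
  ∃ (L : Type u) (_ : InCRL L), (∀ x : L, x ^ m ≤ x ^ n) ∧
    ∃ f : A → L, Function.Injective f ∧ IsHom a (reduct L) f

/-- The class of l-bimonoidal subreducts of the variety given by `x ^ m ≤ x ^ n` is closed under
homomorphic images. -/
def ClosedUnderH (m n : ℕ) : Prop :=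
  ∀ (A B : Type u) (a : BiAlg A) (b : BiAlg B) (f : A → B),
    IsHom a b f → Function.Surjective f → IsSubreduct m n a → IsSubreduct m n b

/-- This class is closed under (isomorphic copies of) subalgebras. -/
def ClosedUnderS (m n : ℕ) : Prop :=
  ∀ (A B : Type u) (a : BiAlg A) (b : BiAlg B) (f : A → B),
    IsHom a b f → Function.Injective f → IsSubreduct m n b → IsSubreduct m n a

/-- This class is closed under direct products. -/
def ClosedUnderP (m n : ℕ) : Prop :=
  ∀ (I : Type u) (A : I → Type u) (a : ∀ i, BiAlg (A i)),
    (∀ i, IsSubreduct m n (a i)) → IsSubreduct m n (BiAlg.pi a)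

/-- The l-bimonoidal subreducts of the variety given by `x ^ m ≤ x ^ n` form a variety. -/
def SubreductsFormVariety (m n : ℕ) : Prop :=
  ClosedUnderH.{u} m n ∧ ClosedUnderS.{u} m n ∧ ClosedUnderP.{u} m n

end Pool.Agent.Helper48.Knotted
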