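import Pool.Agent.Helper48.Knotted.Defs

/-!
# The quasi-identity satisfied by all l-bimonoidal subreducts
-/

namespace Pool.Agent.Helper48.Knotted

universe u

section InCRLBasics

variable {L : Type u} [InCRL L]

theorem le_imp_iff {x y z : L} : y ≤ InCRL.imp x z ↔ x * y ≤ z :=
  (InCRL.mul_le_iff x y z).symm

theorem neg_neg' (x : L) : neg (neg x) = x := InCRL.imp_imp_fal x

theorem le_neg_iff {x y : L} : y ≤ neg x ↔ x * y ≤ (InCRL.fal : L) := le_imp_iff

theorem mul_mono {a b c d : L} (h1 : a ≤ b) (h2 : c ≤ d) : a * c ≤ b * d := by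
  have e1 : b * c ≤ b * d := by
    rw [InCRL.mul_le_iff]
    exact h2.trans (le_imp_iff.2 le_rfl)
  have e2 : a * c ≤ b * c := by
    rw [mul_comm a c, mul_comm b c, InCRL.mul_le_iff]
    exact h1.trans (le_imp_iff.2 le_rfl)
  exact e2.trans e1

/-- `x ≤ ¬ y` iff `x * y ≤ 0`. -/
theorem le_neg_iff' {x y : L} : x ≤ neg y ↔ x * y ≤ (InCRL.fal : L) := by
  rw [le_neg_iff, mul_comm]

theorem neg_antitone {x y : L} (h : x ≤ y) : neg y ≤ neg x := by
  rw [le_neg_iff]
  have : y * neg y ≤ (InCRL.fal : L) := le_neg_iff.1 le_rfl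
  exact (mul_mono h le_rfl).trans this

theorem neg_le_neg_iff {x y : L} : neg y ≤ neg x ↔ x ≤ y := by
  constructor
  · intro h
    have := neg_antitone h
    rwa [neg_neg', neg_neg'] at this
  · exact neg_antitone

theorem neg_injective {x y : L} (h : neg x = neg y) : x = y := by
  rw [← neg_neg' x, h, neg_neg']

theorem neg_one_eq : neg (1 : L) = InCRL.fal := by
  apply le_antisymm
  · have : (1 : L) * neg 1 ≤ InCRL.fal := le_neg_iff.1 le_rfl
    simpa using this
  · rw [le_neg_iff]; simp

theorem neg_fal : neg (InCRL.fal : L) = 1 := by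
  rw [← neg_one_eq, neg_neg']

theorem neg_plus (x y : L) : neg (plus x y) = neg x * neg y := by
  unfold plus; rw [neg_neg']

/-- The main translation: `p ≤ q + r` iff `p * (¬q * ¬r) ≤ 0`. -/
theorem le_plus_iff {p q r : L} : p ≤ plus q r ↔ p * (neg q * neg r) ≤ (InCRL.fal : L) := by
  unfold plus
  rw [le_neg_iff']

theorem list_prod_le_pow (G : L) (l : List L) (h : ∀ x ∈ l, x ≤ G) : l.prod ≤ G ^ l.length := by
  induction l with
  | nil => simp
  | cons a l ih =>
    rw [List.prod_cons, List.length_cons, pow_succ, mul_comm]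
    exact mul_mono (ih fun x hx => h x (by simp [hx])) (h a (by simp))

theorem pow_le_of_forall {m : ℕ} (hm : (Finset.univ : Finset (Fin m)).Nonempty) (g : Fin m → L) :
    ∀ (n : ℕ) (v : L), (∀ f : Fin n → Fin m, (List.ofFn fun j => g (f j)).prod ≤ v) →
      (Finset.univ.sup' hm g) ^ n ≤ v := by
  intro n
  induction n with
  | zero =>
    intro v h
    have := h (fun j => j.elim0)
    simpa using this
  | succ n ih =>
    intro v h
    rw [pow_succ', InCRL.mul_le_iff]
    apply ih
    intro f
    rw [le_imp_iff, mul_comm, InCRL.mul_le_iff]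
    apply Finset.sup'_le
    intro i _
    rw [le_imp_iff, mul_comm]
    have := h (Fin.cons i f)
    simpa [List.ofFn_succ] using this

end InCRLBasics

namespace BiAlg

variable {A : Type u}

/-- The product of a list in the signature. -/
def prod (a : BiAlg A) (l : List A) : A := l.foldr a.mul a.one

/-- The sum of a list in the signature. -/
def sum (a : BiAlg A) (l : List A) : A := l.foldr a.add a.zero

/-- The lattice order. -/
def le (a : BiAlg A) (x y : A) : Prop := a.sup x y = y

end BiAlg

/-- The quasi-identity. -/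
def Star (m n : ℕ) {A : Type u} (a : BiAlg A) : Prop :=
  ∀ (x y : Fin m → A) (c d : A),
    (∀ f : Fin n → Fin m, a.le (a.mul d (a.prod (List.ofFn fun j => x (f j))))
      (a.add c (a.sum (List.ofFn fun j => y (f j))))) →
    a.le (a.mul d (a.prod (List.ofFn x))) (a.add c (a.sum (List.ofFn y)))

section transfer

variable {A B : Type u} {a : BiAlg A} {b : BiAlg B} {f : A → B}

theorem IsHom.map_prod (h : IsHom a b f) (l : List A) : f (a.prod l) = b.prod (l.map f) := by
  induction l with
  | nil => exact h.map_one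
  | cons x l ih =>
    change f (a.mul x (a.prod l)) = b.mul (f x) (b.prod (l.map f))
    rw [h.map_mul, ih]

theorem IsHom.map_sum (h : IsHom a b f) (l : List A) : f (a.sum l) = b.sum (l.map f) := by
  induction l with
  | nil => exact h.map_zero
  | cons x l ih =>
    change f (a.add x (a.sum l)) = b.add (f x) (b.sum (l.map f))
    rw [h.map_add, ih]

theorem IsHom.le_iff (h : IsHom a b f) (hf : Function.Injective f) (x y : A) :
    a.le x y ↔ b.le (f x) (f y) := by
  unfold BiAlg.le
  rw [← h.map_sup]
  exact hf.eq_iff.symm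

theorem Star.of_injective {m n : ℕ} (h : IsHom a b f) (hf : Function.Injective f)
    (hb : Star m n b) : Star m n a := by
  intro x y c d hyp
  rw [h.le_iff hf, h.map_mul, h.map_add, h.map_prod, h.map_sum, List.map_ofFn, List.map_ofFn]
  apply hb (f ∘ x) (f ∘ y) (f c) (f d)
  intro g
  have := hyp g
  rw [h.le_iff hf, h.map_mul, h.map_add, h.map_prod, h.map_sum, List.map_ofFn,
    List.map_ofFn] at this
  exact this

end transfer

section reductStar

variable {L : Type u} [InCRL L]

theorem reduct_prod (l : List L) : (reduct L).prod l = l.prod := by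
  induction l with
  | nil => rfl
  | cons x l ih =>
    change x * (reduct L).prod l = _
    rw [ih, List.prod_cons]

theorem neg_reduct_sum (l : List L) : neg ((reduct L).sum l) = (l.map neg).prod := by
  induction l with
  | nil => exact neg_fal
  | cons x l ih =>
    change neg (plus x ((reduct L).sum l)) = _
    rw [neg_plus, ih, List.map_cons, List.prod_cons]

theorem reduct_le (x y : L) : (reduct L).le x y ↔ x ≤ y := sup_eq_right

theorem prod_mul_prod_ofFn {k : ℕ} (x y : Fin k → L) :
    (List.ofFn x).prod * (List.ofFn y).prod = (List.ofFn fun j => x j * y j).prod := by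
  rw [List.prod_ofFn, List.prod_ofFn, List.prod_ofFn, Finset.prod_mul_distrib]

theorem key_iff {k : ℕ} (x y : Fin k → L) (c d : L) :
    (reduct L).le ((reduct L).mul d ((reduct L).prod (List.ofFn x)))
      ((reduct L).add c ((reduct L).sum (List.ofFn y))) ↔
    (d * neg c) * (List.ofFn fun j => x j * neg (y j)).prod ≤ (InCRL.fal : L) := by
  rw [reduct_le, reduct_prod]
  change d * (List.ofFn x).prod ≤ plus c ((reduct L).sum (List.ofFn y)) ↔ _
  rw [le_plus_iff, neg_reduct_sum, List.map_ofFn, ← prod_mul_prod_ofFn]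
  have : d * (List.ofFn x).prod * (neg c * (List.ofFn (neg ∘ y)).prod) =
      d * neg c * ((List.ofFn x).prod * (List.ofFn fun j => neg (y j)).prod) := by
    change d * (List.ofFn x).prod * (neg c * (List.ofFn fun j => neg (y j)).prod) = _
    exact mul_mul_mul_comm _ _ _ _
  rw [this]

theorem star_reduct {m n : ℕ} (hm : 1 ≤ m) (h : ∀ x : L, x ^ m ≤ x ^ n) :
    Star m n (reduct L) := by
  intro x y c d hyp
  rw [key_iff]
  have hne : (Finset.univ : Finset (Fin m)).Nonempty := ⟨⟨0, hm⟩, Finset.mem_univ _⟩
  set g : Fin m → L := fun j => x j * neg (y j) with hg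
  have h1 : (Finset.univ.sup' hne g) ^ n ≤ neg (d * neg c) := by
    apply pow_le_of_forall
    intro f
    rw [le_neg_iff]
    exact (key_iff (fun j => x (f j)) (fun j => y (f j)) c d).1 (hyp f)
  have h2 : (List.ofFn g).prod ≤ (Finset.univ.sup' hne g) ^ m := by
    have := list_prod_le_pow (Finset.univ.sup' hne g) (List.ofFn g) (by
      intro z hz
      rw [List.mem_ofFn] at hz
      obtain ⟨i, rfl⟩ := hz
      exact Finset.le_sup' g (Finset.mem_univ i))
    simpa using this
  rw [← le_neg_iff]
  exact (h2.trans (h _)).trans h1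

end reductStar

theorem IsSubreduct.star {m n : ℕ} (hm : 1 ≤ m) {A : Type u} {a : BiAlg A}
    (h : IsSubreduct m n a) : Star m n a := by
  obtain ⟨L, _, hL, f, hf, hhom⟩ := h
  exact Star.of_injective hhom hf (star_reduct hm hL)

end Pool.Agent.Helper48.Knotted
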