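import Pool.Agent.Helper48.Knotted.KAlg
import Pool.Agent.Helper48.Knotted.Star

/-!
# The homomorphic image violating the quasi-identity
-/

namespace Pool.Agent.Helper48.Knotted

universe u

/-! ### Relations closed under the operations -/

section rel

variable {A B : Type u}

/-- `R` is a subuniverse of the product of `a` and `b`. -/
structure RClosed (a : BiAlg A) (b : BiAlg B) (R : A → B → Prop) : Prop where
  inf : ∀ {x y p q}, R x p → R y q → R (a.inf x y) (b.inf p q)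
  sup : ∀ {x y p q}, R x p → R y q → R (a.sup x y) (b.sup p q)
  mul : ∀ {x y p q}, R x p → R y q → R (a.mul x y) (b.mul p q)
  add : ∀ {x y p q}, R x p → R y q → R (a.add x y) (b.add p q)
  one : R a.one b.one
  zero : R a.zero b.zero

variable {a : BiAlg A} {b : BiAlg B} {R : A → B → Prop}

/-- The algebra on the relation. -/
def RClosed.alg (h : RClosed a b R) : BiAlg {p : A × B // R p.1 p.2} where
  inf p q := ⟨(a.inf p.1.1 q.1.1, b.inf p.1.2 q.1.2), h.inf p.2 q.2⟩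
  sup p q := ⟨(a.sup p.1.1 q.1.1, b.sup p.1.2 q.1.2), h.sup p.2 q.2⟩
  mul p q := ⟨(a.mul p.1.1 q.1.1, b.mul p.1.2 q.1.2), h.mul p.2 q.2⟩
  add p q := ⟨(a.add p.1.1 q.1.1, b.add p.1.2 q.1.2), h.add p.2 q.2⟩
  one := ⟨(a.one, b.one), h.one⟩
  zero := ⟨(a.zero, b.zero), h.zero⟩

/-- The algebra on the image. -/
def RClosed.img (h : RClosed a b R) : BiAlg {y : B // ∃ x, R x y} where
  inf p q := ⟨b.inf p.1 q.1, by
    obtain ⟨x, hx⟩ := p.2; obtain ⟨y, hy⟩ := q.2; exact ⟨_, h.inf hx hy⟩⟩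
  sup p q := ⟨b.sup p.1 q.1, by
    obtain ⟨x, hx⟩ := p.2; obtain ⟨y, hy⟩ := q.2; exact ⟨_, h.sup hx hy⟩⟩
  mul p q := ⟨b.mul p.1 q.1, by
    obtain ⟨x, hx⟩ := p.2; obtain ⟨y, hy⟩ := q.2; exact ⟨_, h.mul hx hy⟩⟩
  add p q := ⟨b.add p.1 q.1, by
    obtain ⟨x, hx⟩ := p.2; obtain ⟨y, hy⟩ := q.2; exact ⟨_, h.add hx hy⟩⟩
  one := ⟨b.one, _, h.one⟩
  zero := ⟨b.zero, _, h.zero⟩

theorem RClosed.img_hom (h : RClosed a b R) : IsHom h.img b Subtype.val where
  map_inf _ _ := rfl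
  map_sup _ _ := rfl
  map_mul _ _ := rfl
  map_add _ _ := rfl
  map_one := rfl
  map_zero := rfl

theorem RClosed.star {m n : ℕ} (hH : ClosedUnderH.{u} m n) (hm : 1 ≤ m) (h : RClosed a b R)
    (hinj : ∀ x p q, R x p → R x q → p = q) (ha : IsSubreduct m n a) : Star m n h.img := by
  obtain ⟨L, iL, hL, f, hf, hhom⟩ := ha
  have h1 : IsSubreduct m n h.alg := by
    refine ⟨L, iL, hL, fun p => f p.1.1, ?_, ?_⟩
    · rintro ⟨⟨x, p⟩, hp⟩ ⟨⟨y, q⟩, hq⟩ e
      have e1 : x = y := hf e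
      subst e1
      have e2 : p = q := hinj x p q hp hq
      subst e2
      rfl
    · constructor
      · intro _ _; exact hhom.map_inf _ _
      · intro _ _; exact hhom.map_sup _ _
      · intro _ _; exact hhom.map_mul _ _
      · intro _ _; exact hhom.map_add _ _
      · exact hhom.map_one
      · exact hhom.map_zero
  have h2 := hH _ _ h.alg h.img (fun p => ⟨p.1.2, p.1.1, p.2⟩)
    { map_inf := fun _ _ => rfl
      map_sup := fun _ _ => rfl
      map_mul := fun _ _ => rfl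
      map_add := fun _ _ => rfl
      map_one := rfl
      map_zero := rfl } (by
      rintro ⟨y, x, hx⟩
      exact ⟨⟨(x, y), hx⟩, rfl⟩) h1
  exact h2.star hm

/-- Unfolding the quasi-identity in the image. -/
theorem RClosed.star_unfold {m n : ℕ} (h : RClosed a b R) (hs : Star m n h.img)
    (x y : Fin m → B) (c d : B) (hx : ∀ i, ∃ u, R u (x i)) (hy : ∀ i, ∃ u, R u (y i))
    (hc : ∃ u, R u c) (hd : ∃ u, R u d)
    (hyp : ∀ f : Fin n → Fin m, b.le (b.mul d (b.prod (List.ofFn fun j => x (f j))))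
      (b.add c (b.sum (List.ofFn fun j => y (f j))))) :
    b.le (b.mul d (b.prod (List.ofFn x))) (b.add c (b.sum (List.ofFn y))) := by
  have hinj : Function.Injective (Subtype.val : {y : B // ∃ x, R x y} → B) :=
    Subtype.val_injective
  have := hs (fun i => ⟨x i, hx i⟩) (fun i => ⟨y i, hy i⟩) ⟨c, hc⟩ ⟨d, hd⟩ (by
    intro f
    rw [h.img_hom.le_iff hinj, h.img_hom.map_mul, h.img_hom.map_add, h.img_hom.map_prod,
      h.img_hom.map_sum, List.map_ofFn, List.map_ofFn]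
    exact hyp f)
  rw [h.img_hom.le_iff hinj, h.img_hom.map_mul, h.img_hom.map_add, h.img_hom.map_prod,
    h.img_hom.map_sum, List.map_ofFn, List.map_ofFn] at this
  exact this

end rel

/-! ### The algebra -/

/-- The carrier of the image. -/
inductive KK (m n : ℕ) (M : Type u) [AddCommMonoid M]
  | t (a : TT m n M)
  | x (k : KX M)
  | r (a : TT m n M)

section K

variable {m n : ℕ} {M : Type u} [AddCommMonoid M]

/-- The algebra of raw elements. -/
noncomputable def kalg (m n : ℕ) (M : Type u) [AddCommMonoid M] : BiAlg (KK m n M) where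
  inf
    | .t a, .t b => .t (a ⊓ b)
    | .t _, .x b => .x b
    | .t _, .r b => .r b
    | .x a, .t _ => .x a
    | .x a, .x b => .x (a.meet b)
    | .x _, .r b => .r b
    | .r a, .t _ => .r a
    | .r a, .x _ => .r a
    | .r a, .r b => .r (a ⊔ b)
  sup
    | .t a, .t b => .t (a ⊔ b)
    | .t a, .x _ => .t a
    | .t a, .r _ => .t a
    | .x _, .t b => .t b
    | .x a, .x b => .x (a.join m n b)
    | .x a, .r _ => .x a
    | .r _, .t b => .t b
    | .r _, .x b => .x b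
    | .r a, .r b => .r (a ⊓ b)
  mul
    | .t a, .t b => .t (a * b)
    | .t a, .x b => .x (b.act a)
    | .t a, .r b => .r (TT.imp' a b)
    | .x a, .t b => .x (a.act b)
    | .x _, .x _ => .x .bot
    | .x _, .r _ => .r TT.top'
    | .r a, .t b => .r (TT.imp' b a)
    | .r _, .x _ => .r TT.top'
    | .r _, .r _ => .r TT.top'
  add
    | .t _, .t _ => .t TT.top'
    | .t _, .x _ => .t TT.top'
    | .t a, .r b => .t (TT.imp' b a)
    | .x _, .t _ => .t TT.top'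
    | .x _, .x _ => .t TT.top'
    | .x a, .r b => .x (a.res b)
    | .r a, .t b => .t (TT.imp' a b)
    | .r a, .x b => .x (b.res a)
    | .r a, .r b => .r (a * b)
  one := .t 1
  zero := .r 1

variable {PT PR G : Set M}

/-- The index set of the context. -/
def Kap (m n : ℕ) (PR G : Set M) : Type u := {x : KX M // OK m n PR G x}

/-- The context. -/
def ctxZ (m n : ℕ) (PT PR G : Set M) (k l : Kap m n PR G) : Set M := ZZ PT k.1 l.1

theorem ctxZ_fc (H : Hyp m n PT PR G) (k l : Kap m n PR G) : FC m n (ctxZ m n PT PR G k l) :=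
  fc_ZZ H l.2

/-- `S` is sandwiched by `k`. -/
def Sand (S : XX (ctxZ m n PT PR G)) (k : Kap m n PR G) : Prop :=
  (k, 0) ∈ S.1 ∧ ∀ o ∈ S.1, o.2 ∈ ZZ PT o.1.1 k.1

/-- membership in closed sets from membership in the second closure -/
theorem mem_of_up {S : XX (ctxZ m n PT PR G)} {k : Kap m n PR G} {z : M}
    (h : ∀ (l : Kap m n PR G) (z' : M), (∀ o ∈ S.1, o.2 + z' ∈ ZZ PT o.1.1 l.1) →
      z + z' ∈ ZZ PT k.1 l.1) : (k, z) ∈ S.1 :=
  S.2 fun a ha => h a.1 a.2 ha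

theorem gen_le_ZZ {A : Set (Kap m n PR G × M)} {k : Kap m n PR G}
    (h : ∀ o ∈ A, o.2 ∈ ZZ PT o.1.1 k.1) :
    ∀ o ∈ (gen (ctxZ m n PT PR G) A).1, o.2 ∈ ZZ PT o.1.1 k.1 := by
  intro o ho
  have := ho (k, 0) (by
    intro o' ho'
    change o'.2 + 0 ∈ ZZ PT o'.1.1 k.1
    rw [add_zero]
    exact h o' ho')
  change o.2 + 0 ∈ ZZ PT o.1.1 k.1 at this
  rwa [add_zero] at this

theorem Sand.gen_self (H : Hyp m n PT PR G) (k : Kap m n PR G) :
    Sand (gen (ctxZ m n PT PR G) {(k, 0)}) k := by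
  constructor
  · exact subset_dn_up _ _ rfl
  · apply gen_le_ZZ
    rintro _ rfl
    exact R0 H k.2

theorem Sand.inj (H : Hyp m n PT PR G) {S : XX (ctxZ m n PT PR G)} {k l : Kap m n PR G}
    (h1 : Sand S k) (h2 : Sand S l) : k = l :=
  Subtype.ext (R1 H (h2.2 _ h1.1) (h1.2 _ h2.1))

theorem Sand.meet (H : Hyp m n PT PR G) {S T : XX (ctxZ m n PT PR G)} {k l : Kap m n PR G}
    (h1 : Sand S k) (h2 : Sand T l) : Sand (S ⊓ T) ⟨k.1.meet l.1, meet_ok H k.2 l.2⟩ := by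
  constructor
  · constructor
    · apply mem_of_up
      intro j z' h
      have := h _ h1.1
      rw [zero_add] at this ⊢
      exact R2 this
    · apply mem_of_up
      intro j z' h
      have := h _ h2.1
      rw [zero_add] at this ⊢
      exact R2' this
  · intro o ho
    exact R3 (h1.2 o ho.1) (h2.2 o ho.2)

theorem Sand.join (H : Hyp m n PT PR G) {S T : XX (ctxZ m n PT PR G)} {k l : Kap m n PR G}
    (h1 : Sand S k) (h2 : Sand T l) : Sand (S ⊔ T) ⟨k.1.join m n l.1, join_ok H k.2 l.2⟩ := by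
  constructor
  · apply mem_of_up
    intro j z' h
    rw [zero_add]
    have a1 := h _ (subset_dn_up _ _ (Or.inl h1.1))
    have a2 := h _ (subset_dn_up _ _ (Or.inr h2.1))
    rw [zero_add] at a1 a2
    exact R4 H k.2 l.2 j.2 a1 a2
  · apply gen_le_ZZ
    rintro o (ho | ho)
    · exact R5 H k.2 l.2 (h1.2 o ho)
    · exact R5' H k.2 l.2 (h2.2 o ho)

theorem Sand.bot (_H : Hyp m n PT PR G) :
    Sand (gen (ctxZ m n PT PR G) ∅) ⟨KX.bot, bot_ok⟩ := by
  constructor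
  · apply mem_of_up
    intro j z' _
    exact ⟨trivial, fun h => h.elim, fun u hu => hu.elim⟩
  · apply gen_le_ZZ
    intro o ho
    exact ho.elim

theorem Sand.act (H : Hyp m n PT PR G) {S : XX (ctxZ m n PT PR G)} {k : Kap m n PR G}
    {t : TT m n M} (ht : QP PT PR t)
    (h1 : Sand S k) : Sand (actX _ t S) ⟨k.1.act t, act_ok H ht k.2⟩ := by
  constructor
  · apply mem_of_up
    intro j z' h
    rw [zero_add]
    apply R6 H ht k.2 j.2
    intro s hs
    have := h (k, 0 + s) (subset_dn_up _ _ ⟨s, hs, (k, 0), h1.1, rfl⟩)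
    rw [zero_add] at this
    rw [add_comm]
    exact this
  · apply gen_le_ZZ
    rintro _ ⟨s, hs, o, ho, rfl⟩
    exact R7 H k.2 (h1.2 o ho) hs

theorem Sand.res (H : Hyp m n PT PR G) {S : XX (ctxZ m n PT PR G)} {k : Kap m n PR G}
    {r : TT m n M} (hr : QP PR PT r)
    (h1 : Sand S k) : Sand (raX _ r S) ⟨k.1.res r, res_ok H hr k.2⟩ := by
  constructor
  · intro ρ hρ
    apply mem_of_up
    intro j z' h
    have := h _ h1.1
    rw [zero_add] at this
    change 0 + ρ + z' ∈ _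
    rw [zero_add, add_comm]
    exact R9 H hr k.2 this hρ
  · intro o ho
    apply R8 H
    intro ρ hρ
    exact h1.2 _ (ho ρ hρ)

/-- The relation. -/
inductive Rel (m n : ℕ) (PT PR G : Set M) :
    Lv (TT m n M) (XX (ctxZ m n PT PR G)) → KK m n M → Prop
  | t (a : TT m n M) (h : QP PT PR a) : Rel m n PT PR G (.t a) (.t a)
  | x (S : XX (ctxZ m n PT PR G)) (k : KX M) (h : OK m n PR G k) (h' : Sand S ⟨k, h⟩) :
      Rel m n PT PR G (.x S) (.x k)
  | r (a : TT m n M) (h : QP PR PT a) : Rel m n PT PR G (.t' a) (.r a)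

theorem rclosed (H : Hyp m n PT PR G) :
    RClosed (@reduct _ (Lv.inCRL (ctxData _ (ctxZ_fc H)))) (kalg m n M) (Rel m n PT PR G) where
  inf := by
    rintro _ _ _ _ (⟨a, ha⟩ | ⟨S, k, hk, hS⟩ | ⟨a, ha⟩) (⟨b, hb⟩ | ⟨T, l, hl, hT⟩ | ⟨b, hb⟩)
    · exact Rel.t _ (ha.inf H.pt hb)
    · exact Rel.x _ _ hl hT
    · exact Rel.r _ hb
    · exact Rel.x _ _ hk hS
    · exact Rel.x _ _ _ (hS.meet H hT)
    · exact Rel.r _ hb
    · exact Rel.r _ ha
    · exact Rel.r _ ha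
    · exact Rel.r _ (ha.sup H H.pr H.pt hb)
  sup := by
    rintro _ _ _ _ (⟨a, ha⟩ | ⟨S, k, hk, hS⟩ | ⟨a, ha⟩) (⟨b, hb⟩ | ⟨T, l, hl, hT⟩ | ⟨b, hb⟩)
    · exact Rel.t _ (ha.sup H H.pt H.pr hb)
    · exact Rel.t _ ha
    · exact Rel.t _ ha
    · exact Rel.t _ hb
    · exact Rel.x _ _ _ (hS.join H hT)
    · exact Rel.x _ _ hk hS
    · exact Rel.t _ hb
    · exact Rel.x _ _ hl hT
    · exact Rel.r _ (ha.inf H.pr hb)
  mul := by
    rintro _ _ _ _ (⟨a, ha⟩ | ⟨S, k, hk, hS⟩ | ⟨a, ha⟩) (⟨b, hb⟩ | ⟨T, l, hl, hT⟩ | ⟨b, hb⟩)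
    · exact Rel.t _ (ha.mul H H.pt H.pr hb)
    · exact Rel.x _ _ _ (hT.act H ha)
    · exact Rel.r _ (QP.imp H H.pr H.pt ha hb)
    · exact Rel.x _ _ _ (hS.act H hb)
    · exact Rel.x _ _ _ (Sand.bot H)
    · exact Rel.r _ (QP.top H.pr)
    · exact Rel.r _ (QP.imp H H.pr H.pt hb ha)
    · exact Rel.r _ (QP.top H.pr)
    · exact Rel.r _ (QP.top H.pr)
  add := by
    rintro _ _ _ _ (⟨a, ha⟩ | ⟨S, k, hk, hS⟩ | ⟨a, ha⟩) (⟨b, hb⟩ | ⟨T, l, hl, hT⟩ | ⟨b, hb⟩) <;>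
      change Rel m n PT PR G (@plus _ (Lv.inCRL (ctxData _ (ctxZ_fc H))) _ _) _ <;>
      rw [Lv.plus_eq]
    · exact Rel.t _ (QP.top H.pt)
    · exact Rel.t _ (QP.top H.pt)
    · exact Rel.t _ (QP.imp H H.pt H.pr hb ha)
    · exact Rel.t _ (QP.top H.pt)
    · exact Rel.t _ (QP.top H.pt)
    · exact Rel.x _ _ _ (hS.res H hb)
    · exact Rel.t _ (QP.imp H H.pt H.pr ha hb)
    · exact Rel.x _ _ _ (hT.res H ha)
    · exact Rel.r _ (ha.mul H H.pr H.pt hb)
  one := Rel.t _ (QP.one H H.pt)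
  zero := Rel.r _ (QP.one H H.pr)

theorem rel_inj (H : Hyp m n PT PR G) (x : Lv (TT m n M) (XX (ctxZ m n PT PR G)))
    (p q : KK m n M) (h1 : Rel m n PT PR G x p) (h2 : Rel m n PT PR G x q) : p = q := by
  rcases h1 with ⟨a, ha⟩ | ⟨S, k, hk, hS⟩ | ⟨a, ha⟩
  · cases h2
    rfl
  · rcases h2 with _ | ⟨_, l, hl, hT⟩ | _
    have := hS.inj H hT
    have := congrArg Subtype.val this
    exact congrArg KK.x this
  · cases h2
    rfl

theorem isSubreduct_reduct {L : Type u} (iL : InCRL L) (h : ∀ x : L, x ^ m ≤ x ^ n) :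
    IsSubreduct m n (reduct L) :=
  ⟨L, iL, h, id, Function.injective_id,
    { map_inf := fun _ _ => rfl
      map_sup := fun _ _ => rfl
      map_mul := fun _ _ => rfl
      map_add := fun _ _ => rfl
      map_one := rfl
      map_zero := rfl }⟩

/-! ### Evaluation of the quasi-identity -/

/-- The closed set generated by a point. -/
def pt (m n : ℕ) {M : Type u} [AddCommMonoid M] (τ : M) : TT m n M := ⟨cl m n {τ}, cl_fc _⟩

theorem mem_pt (τ : M) : τ ∈ (pt m n τ).1 := subset_cl _ rfl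

theorem pt_subset {τ : M} {S : Set M} (hS : FC m n S) (h : τ ∈ S) : (pt m n τ).1 ⊆ S :=
  cl_subset hS (Set.singleton_subset_iff.2 h)

theorem pt_zero : pt m n (0 : M) = 1 := rfl

theorem pt_le {τ : M} {C : TT m n M} : pt m n τ ≤ C ↔ τ ∈ C.1 :=
  ⟨fun h => h (mem_pt τ), fun h => pt_subset C.2 h⟩

theorem pt_mul (a b : M) : pt m n a * pt m n b = pt m n (a + b) := by
  apply eq_of_forall_ge_iff
  intro C
  rw [pt_le, TT.mul_le]
  constructor
  · intro h
    exact h a (mem_pt a) b (mem_pt b)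
  · intro h x hx y hy
    have h1 : (pt m n a) ≤ ⟨{z | z + b ∈ C.1}, C.2.translate b⟩ := pt_le.2 h
    have h2 : x + b ∈ C.1 := h1 hx
    have h3 : (pt m n b) ≤ ⟨{z | z + x ∈ C.1}, C.2.translate x⟩ := pt_le.2 (by
      change b + x ∈ C.1
      rwa [add_comm])
    have h4 : y + x ∈ C.1 := h3 hy
    rwa [add_comm] at h4

theorem kprod {k : ℕ} (τ : Fin k → M) :
    (kalg m n M).prod (List.ofFn fun j => KK.t (pt m n (τ j))) = KK.t (pt m n (∑ j, τ j)) := by
  induction k with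
  | zero =>
    rw [List.ofFn_zero, Finset.univ_eq_empty, Finset.sum_empty]
    rfl
  | succ k ih =>
    rw [List.ofFn_succ, Fin.sum_univ_succ, ← pt_mul]
    change (kalg m n M).mul (KK.t (pt m n (τ 0)))
      ((kalg m n M).prod (List.ofFn fun j : Fin k => KK.t (pt m n (τ j.succ)))) = _
    rw [ih fun j => τ j.succ]
    rfl

theorem ksum {k : ℕ} (τ : Fin k → M) :
    (kalg m n M).sum (List.ofFn fun j => KK.r (pt m n (τ j))) = KK.r (pt m n (∑ j, τ j)) := by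
  induction k with
  | zero =>
    rw [List.ofFn_zero, Finset.univ_eq_empty, Finset.sum_empty]
    rfl
  | succ k ih =>
    rw [List.ofFn_succ, Fin.sum_univ_succ, ← pt_mul]
    change (kalg m n M).add (KK.r (pt m n (τ 0)))
      ((kalg m n M).sum (List.ofFn fun j : Fin k => KK.r (pt m n (τ j.succ)))) = _
    rw [ih fun j => τ j.succ]
    rfl

/-- The element `d`. -/
def dd (M : Type u) [AddCommMonoid M] : KX M := ⟨{0}, .t⟩

theorem dd_ok (H : Hyp m n PT PR G) : OK m n PR G (dd M) :=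
  Or.inr (Or.inr ⟨rfl, fc_ne H, fun _ h1 _ h3 => absurd h1 h3⟩)

theorem act_dd (_H : Hyp m n PT PR G) (τ : M) : ∃ A : Set M,
    (dd M).act (pt m n τ) = ⟨A, .t⟩ ∧ τ ∈ A ∧ A ⊆ (pt m n τ).1 := by
  have hm : τ ∈ (pt m n τ).1 := mem_pt τ
  unfold KX.act
  split_ifs with h1 h2 h3
  · rw [h1] at hm
    exact hm.elim
  · refine ⟨{0}, rfl, ?_, ?_⟩
    · rwa [h2] at hm
    · rw [h2]
  · cases h3
  · refine ⟨_, rfl, ?_, ?_⟩
    · apply subset_cl
      exact ⟨τ, hm, 0, rfl, add_zero τ⟩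
    · apply cl_subset (pt m n τ).2
      rintro _ ⟨a, ha, b, hb, rfl⟩
      have : b = 0 := hb
      subst this
      change a + 0 ∈ _
      rwa [add_zero]

theorem res_G (H : Hyp m n PT PR G) {ρ : M} (hρ : ρ ≠ 0) :
    (⟨G, .c⟩ : KX M).res (pt m n ρ) = ⟨pw (pt m n ρ) G, .t⟩ := by
  unfold KX.res
  rw [if_pos]
  right
  intro h0
  exact (pt_subset (fc_ne_zero H) hρ) h0 rfl

theorem mem_pw (H : Hyp m n PT PR G) {τ ρ : M} (hτ : τ ≠ 0) (h : τ + ρ ∈ G) :
    τ ∈ pw (pt m n ρ) G := by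
  intro ρ' hρ'
  have h1 : FC m n {z | z + τ ∈ G} := H.grc.translate_fc H.zero hτ
  have h2 : ρ' ∈ {z | z + τ ∈ G} := pt_subset h1 (by
    change ρ + τ ∈ G
    rwa [add_comm]) hρ'
  change ρ' + τ ∈ G at h2
  rwa [add_comm] at h2

theorem pw_G_fc (H : Hyp m n PT PR G) {ρ : M} (hρ : ρ ≠ 0) : FC m n (pw (pt m n ρ) G) := by
  apply pw_fc
  intro ρ' hρ'
  exact H.grc.translate_fc H.zero ((pt_subset (fc_ne_zero H) hρ) hρ')

theorem k_le_iff {A B : Set M} (hB : FC m n B) :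
    (kalg m n M).le (KK.x ⟨A, .t⟩) (KK.x ⟨B, .t⟩) ↔ A ⊆ B := by
  change KK.x (⟨cl m n (A ∪ B), .t⟩ : KX M) = KK.x ⟨B, .t⟩ ↔ _
  constructor
  · intro h z hz
    have h1 : (⟨cl m n (A ∪ B), .t⟩ : KX M) = ⟨B, .t⟩ := by
      injection h
    have h2 : cl m n (A ∪ B) = B := congrArg KX.s h1
    rw [← h2]
    exact subset_cl _ (Or.inl hz)
  · intro h
    have : cl m n (A ∪ B) = B :=
      (cl_subset hB (Set.union_subset h (Set.Subset.refl _))).antisymm
        (Set.subset_union_right.trans (subset_cl _))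
    rw [this]

theorem qp_pt (H : Hyp m n PT PR G) {P P' : Set M} (hP : Face P)
    (hd : ∀ z, z ∈ P → z ∈ P' → z = 0) {τ : M} (h : τ ∈ P) : QP P P' (pt m n τ) := by
  have hsub : (pt m n τ).1 ⊆ P := pt_subset (hP.fc H.hm H.hn) h
  exact ⟨fun ρ h1 h2 h3 => absurd (hd ρ (hsub h1) h2) h3, Or.inl hsub⟩

theorem main_construction (H : Hyp m n PT PR G) (hm2 : 2 ≤ m)
    (τ ρ : Fin m → M) (hτ : ∀ i, τ i ∈ PT) (hρ : ∀ i, ρ i ∈ PR) (hρ0 : ∀ i, ρ i ≠ 0)
    (hτ0 : ∀ i, τ i ≠ 0)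
    (h1 : ∀ f : Fin n → Fin m, ∑ j, τ (f j) + ∑ j, ρ (f j) ∈ G)
    (h2 : ∑ i, τ i + ∑ i, ρ i ∉ G) : ¬ ClosedUnderH.{u} m n := by
  intro hH
  have hsub : IsSubreduct m n (@reduct _ (Lv.inCRL (ctxData _ (ctxZ_fc H)))) :=
    isSubreduct_reduct (Lv.inCRL (ctxData _ (ctxZ_fc H)))
      (Lv.pow_le_pow _ hm2 H.hn TT.pow_le_pow)
  have hstar := (rclosed H).star hH H.hm (rel_inj H) hsub
  have hsumne : ∀ {k : ℕ} (hk : 1 ≤ k) (g : Fin k → M), (∀ i, g i ≠ 0) → ∑ i, g i ≠ 0 := by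
    intro k hk g hg hs
    have : ∑ i, g i ∈ ({0} : Set M) := hs
    rw [H.face0.sum] at this
    exact hg ⟨0, hk⟩ (this _)
  have hGok : OK m n PR G (⟨G, .c⟩ : KX M) := Or.inr (Or.inl ⟨rfl, Set.Subset.refl _, H.grc⟩)
  have := (rclosed H).star_unfold hstar (fun i => KK.t (pt m n (τ i)))
    (fun i => KK.r (pt m n (ρ i))) (KK.x ⟨G, .c⟩) (KK.x (dd M))
    (fun i => ⟨_, Rel.t _ (qp_pt H H.pt H.disj (hτ i))⟩)
    (fun i => ⟨_, Rel.r _ (qp_pt H H.pr (fun z h h' => H.disj z h' h) (hρ i))⟩)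
    ⟨_, Rel.x _ _ hGok (Sand.gen_self H _)⟩
    ⟨_, Rel.x _ _ (dd_ok H) (Sand.gen_self H _)⟩ (by
      intro f
      rw [kprod fun j => τ (f j), ksum fun j => ρ (f j)]
      change (kalg m n M).le (KK.x ((dd M).act _)) (KK.x ((⟨G, .c⟩ : KX M).res _))
      obtain ⟨A, hA, _, hA2⟩ := act_dd H (∑ j, τ (f j))
      have hr0 := hsumne H.hn (fun j => ρ (f j)) fun j => hρ0 _
      have ht0 := hsumne H.hn (fun j => τ (f j)) fun j => hτ0 _
      rw [hA, res_G H hr0, k_le_iff (pw_G_fc H hr0)]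
      exact hA2.trans (pt_subset (pw_G_fc H hr0) (mem_pw H ht0 (h1 f))))
  rw [kprod τ, ksum ρ] at this
  change (kalg m n M).le (KK.x ((dd M).act _)) (KK.x ((⟨G, .c⟩ : KX M).res _)) at this
  obtain ⟨A, hA, hA1, _⟩ := act_dd H (∑ j, τ j)
  have hr0 := hsumne H.hm ρ hρ0
  rw [hA, res_G H hr0, k_le_iff (pw_G_fc H hr0)] at this
  exact h2 (this hA1 _ (mem_pt _))

end K

end Pool.Agent.Helper48.Knotted
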