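import Pool.Agent.Helper48.Knotted.Image

/-!
# The two instances
-/

namespace Pool.Agent.Helper48.Knotted

universe u

/-- The monoid. -/
abbrev MM (m : ℕ) : Type u := ULift.{u} ((Fin m → ℕ) × (Fin m → ℕ))

section

variable {m n : ℕ}

/-- first coordinates -/
def cP (a : Fin m) : MM.{u} m →+ ℕ where
  toFun z := z.down.1 a
  map_zero' := rfl
  map_add' _ _ := rfl

/-- second coordinates -/
def cQ (a : Fin m) : MM.{u} m →+ ℕ where
  toFun z := z.down.2 a
  map_zero' := rfl
  map_add' _ _ := rfl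

theorem MM_ext {z w : MM.{u} m} (h1 : ∀ a, cP a z = cP a w) (h2 : ∀ a, cQ a z = cQ a w) :
    z = w := by
  apply ULift.down_injective
  apply Prod.ext
  · exact funext h1
  · exact funext h2

theorem MM_ne_zero {z : MM.{u} m} (h : z ≠ 0) : ∃ a, cP a z ≠ 0 ∨ cQ a z ≠ 0 := by
  by_contra hcon
  push Not at hcon
  exact h (MM_ext (fun a => by rw [(hcon a).1, map_zero]) fun a => by rw [(hcon a).2, map_zero])

theorem MM_zero {a b : MM.{u} m} (h : a + b = 0) : a = 0 ∧ b = 0 := by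
  have h1 : ∀ i, cP i a + cP i b = 0 := fun i => by rw [← map_add, h, map_zero]
  have h2 : ∀ i, cQ i a + cQ i b = 0 := fun i => by rw [← map_add, h, map_zero]
  constructor
  · apply MM_ext
    · intro i; rw [map_zero]; have := h1 i; omega
    · intro i; rw [map_zero]; have := h2 i; omega
  · apply MM_ext
    · intro i; rw [map_zero]; have := h1 i; omega
    · intro i; rw [map_zero]; have := h2 i; omega

/-- The first face. -/
def fT (m : ℕ) : Set (MM.{u} m) := {z | ∀ a, cQ a z = 0}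

/-- The second face. -/
def fR (m : ℕ) : Set (MM.{u} m) := {z | ∀ a, cP a z = 0}

theorem fT_face : Face (fT.{u} m) where
  zero a := map_zero _
  add z w := by
    constructor
    · intro h
      refine ⟨fun a => ?_, fun a => ?_⟩
      · have := h a; rw [map_add] at this; omega
      · have := h a; rw [map_add] at this; omega
    · rintro ⟨h1, h2⟩ a
      rw [map_add, h1 a, h2 a]

theorem fR_face : Face (fR.{u} m) where
  zero a := map_zero _
  add z w := by
    constructor
    · intro h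
      refine ⟨fun a => ?_, fun a => ?_⟩
      · have := h a; rw [map_add] at this; omega
      · have := h a; rw [map_add] at this; omega
    · rintro ⟨h1, h2⟩ a
      rw [map_add, h1 a, h2 a]

/-- The generators of the first kind. -/
def eT (i : Fin m) : MM.{u} m := ⟨Pi.single i 1, 0⟩

/-- The generators of the second kind. -/
def eR (i : Fin m) : MM.{u} m := ⟨0, Pi.single i 1⟩

theorem cP_eT (a i : Fin m) : cP a (eT.{u} i) = if a = i then 1 else 0 := by
  change (Pi.single i 1 : Fin m → ℕ) a = _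
  rw [Pi.single_apply]

theorem cQ_eT (a i : Fin m) : cQ a (eT.{u} i) = 0 := rfl

theorem cP_eR (a i : Fin m) : cP a (eR.{u} i) = 0 := rfl

theorem cQ_eR (a i : Fin m) : cQ a (eR.{u} i) = if a = i then 1 else 0 := by
  change (Pi.single i 1 : Fin m → ℕ) a = _
  rw [Pi.single_apply]

theorem cP_gen {k : ℕ} (f : Fin k → Fin m) (a : Fin m) :
    cP a (∑ j, eT.{u} (f j) + ∑ j, eR.{u} (f j)) = ∑ j, if a = f j then 1 else 0 := by
  rw [map_add, map_sum, map_sum]
  simp only [cP_eT, cP_eR, Finset.sum_const_zero, add_zero]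

theorem cQ_gen {k : ℕ} (f : Fin k → Fin m) (a : Fin m) :
    cQ a (∑ j, eT.{u} (f j) + ∑ j, eR.{u} (f j)) = ∑ j, if a = f j then 1 else 0 := by
  rw [map_add, map_sum, map_sum]
  simp only [cQ_eT, cQ_eR, Finset.sum_const_zero, zero_add]

theorem eT_ne (i : Fin m) : eT.{u} i ≠ 0 := by
  intro h
  have := cP_eT.{u} i i
  rw [h, map_zero, if_pos rfl] at this
  exact zero_ne_one this

theorem eR_ne (i : Fin m) : eR.{u} i ≠ 0 := by
  intro h
  have := cQ_eR.{u} i i
  rw [h, map_zero, if_pos rfl] at this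
  exact zero_ne_one this

theorem hyp_of {G : Set (MM.{u} m)} (hm : 1 ≤ m) (hn : 1 ≤ n) (h1 : RC m n G)
    (h2 : ∀ z ∈ G, ∃ a, cP a z ≠ 0) (h3 : ∀ u, ∃ w, u + w ∉ G) :
    Hyp m n (fT m) (fR m) G where
  hm := hm
  hn := hn
  zero _ _ := MM_zero
  pt := fT_face
  pr := fR_face
  ptne := ⟨eT ⟨0, hm⟩, fun a => cQ_eT _ _, eT_ne _⟩
  disj z hz hz' := MM_ext (fun a => by rw [hz' a, map_zero]) fun a => by rw [hz a, map_zero]
  grc := h1
  gpr z hz hz' := by
    obtain ⟨a, ha⟩ := h2 z hz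
    exact ha (hz' a)
  gw := h3

/-! ### The case `n < m` -/

/-- The set for `n < m`. -/
def G1 (m n : ℕ) : Set (MM.{u} m) :=
  {z | (∀ a, cP a z ≠ 0 ↔ cQ a z ≠ 0) ∧ (∃ a, cP a z ≠ 0) ∧
    (Finset.univ.filter fun a => cP a z ≠ 0).card ≤ n}

theorem sum_ne_zero_iff {k : ℕ} (g : Fin k → ℕ) : ∑ i, g i ≠ 0 ↔ ∃ i, g i ≠ 0 := by
  rw [ne_eq, Finset.sum_eq_zero_iff]
  simp

theorem G1_rc (hm : 1 ≤ m) (hn : 1 ≤ n) : RC m n (G1.{u} m n) := by
  intro s X hs hf
  have hP : ∀ {k : ℕ} (f : Fin k → Fin m) (a : Fin m), cP a (s + ∑ j, X (f j)) ≠ 0 ↔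
      cP a s ≠ 0 ∨ ∃ j, cP a (X (f j)) ≠ 0 := by
    intro k f a
    rw [map_add, map_sum, ← sum_ne_zero_iff]
    omega
  have hQ : ∀ {k : ℕ} (f : Fin k → Fin m) (a : Fin m), cQ a (s + ∑ j, X (f j)) ≠ 0 ↔
      cQ a s ≠ 0 ∨ ∃ j, cQ a (X (f j)) ≠ 0 := by
    intro k f a
    rw [map_add, map_sum, ← sum_ne_zero_iff]
    omega
  have hA : ∀ a, cP a (s + ∑ i, X i) ≠ 0 ↔ cQ a (s + ∑ i, X i) ≠ 0 := by
    intro a
    rw [hP (fun i => i), hQ (fun i => i)]
    constructor
    · rintro (h | ⟨i, h⟩)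
      · have h1 := ((hf fun _ => ⟨0, hm⟩).1 a).1 ((hP _ a).2 (Or.inl h))
        rcases (hQ _ a).1 h1 with h2 | ⟨j, h2⟩
        · exact Or.inl h2
        · exact Or.inr ⟨_, h2⟩
      · have h1 := ((hf fun _ => i).1 a).1 ((hP _ a).2 (Or.inr ⟨⟨0, hn⟩, h⟩))
        rcases (hQ _ a).1 h1 with h2 | ⟨j, h2⟩
        · exact Or.inl h2
        · exact Or.inr ⟨_, h2⟩
    · rintro (h | ⟨i, h⟩)
      · have h1 := ((hf fun _ => ⟨0, hm⟩).1 a).2 ((hQ _ a).2 (Or.inl h))
        rcases (hP _ a).1 h1 with h2 | ⟨j, h2⟩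
        · exact Or.inl h2
        · exact Or.inr ⟨_, h2⟩
      · have h1 := ((hf fun _ => i).1 a).2 ((hQ _ a).2 (Or.inr ⟨⟨0, hn⟩, h⟩))
        rcases (hP _ a).1 h1 with h2 | ⟨j, h2⟩
        · exact Or.inl h2
        · exact Or.inr ⟨_, h2⟩
  obtain ⟨a0, ha0⟩ := MM_ne_zero hs
  have hz0 : cP a0 (s + ∑ i, X i) ≠ 0 := by
    rcases ha0 with h | h
    · exact (hP (fun i => i) a0).2 (Or.inl h)
    · exact (hA a0).2 ((hQ (fun i => i) a0).2 (Or.inl h))
  refine ⟨hA, ⟨a0, hz0⟩, ?_⟩
  by_contra hcard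
  push Not at hcard
  have hmem : a0 ∈ Finset.univ.filter fun a => cP a (s + ∑ i, X i) ≠ 0 := by
    rw [Finset.mem_filter]
    exact ⟨Finset.mem_univ _, hz0⟩
  have hc1 : n ≤ ((Finset.univ.filter fun a => cP a (s + ∑ i, X i) ≠ 0).erase a0).card := by
    rw [Finset.card_erase_of_mem hmem]
    omega
  obtain ⟨B, hB1, hB2⟩ := Finset.exists_subset_card_eq hc1
  let e := B.equivFinOfCardEq hB2
  have hex : ∀ j : Fin n, ∃ i : Fin m, cP (e.symm j).1 s ≠ 0 ∨ cP (e.symm j).1 (X i) ≠ 0 := by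
    intro j
    have h1 := hB1 (e.symm j).2
    rw [Finset.mem_erase, Finset.mem_filter] at h1
    rcases (hP (fun i => i) _).1 h1.2.2 with h2 | ⟨i, h2⟩
    · exact ⟨⟨0, hm⟩, Or.inl h2⟩
    · exact ⟨i, Or.inr h2⟩
  choose f hfj using hex
  have hw := hf f
  have hsub : insert a0 B ⊆ Finset.univ.filter fun a => cP a (s + ∑ j, X (f j)) ≠ 0 := by
    intro a ha
    rw [Finset.mem_filter]
    refine ⟨Finset.mem_univ _, ?_⟩
    rw [Finset.mem_insert] at ha
    rcases ha with rfl | ha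
    · rcases ha0 with h | h
      · exact (hP f _).2 (Or.inl h)
      · exact (hw.1 _).2 ((hQ f _).2 (Or.inl h))
    · have h3 := hfj (e ⟨a, ha⟩)
      rw [Equiv.symm_apply_apply] at h3
      rcases h3 with h3 | h3
      · exact (hP f _).2 (Or.inl h3)
      · exact (hP f _).2 (Or.inr ⟨_, h3⟩)
  have hnot : a0 ∉ B := fun h => (Finset.mem_erase.1 (hB1 h)).1 rfl
  have h5 := Finset.card_le_card hsub
  rw [Finset.card_insert_of_notMem hnot, hB2] at h5
  have := hw.2.2
  omega

theorem not_closed_of_lt (hn : 1 ≤ n) (h : n < m) : ¬ ClosedUnderH.{u} m n := by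
  have hm : 1 ≤ m := by omega
  have H : Hyp m n (fT.{u} m) (fR m) (G1 m n) := by
    apply hyp_of hm hn (G1_rc hm hn) (fun z hz => hz.2.1)
    intro v
    refine ⟨⟨fun _ => 1, fun _ => 1⟩, fun hcon => ?_⟩
    have h1 := hcon.2.2
    have h2 : (Finset.univ.filter fun a => cP a (v + (⟨fun _ => 1, fun _ => 1⟩ : MM.{u} m)) ≠ 0) =
        Finset.univ := by
      apply Finset.filter_true_of_mem
      intro a _
      rw [map_add]
      have : cP a (⟨fun _ => 1, fun _ => 1⟩ : MM.{u} m) = 1 := rfl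
      omega
    rw [h2, Finset.card_univ, Fintype.card_fin] at h1
    omega
  apply main_construction H (by omega) eT eR (fun i a => cQ_eT _ _) (fun i a => cP_eR _ _)
    eR_ne eT_ne
  · intro f
    refine ⟨fun a => ?_, ⟨f ⟨0, hn⟩, ?_⟩, ?_⟩
    · rw [cP_gen f, cQ_gen f]
    · rw [cP_gen f, sum_ne_zero_iff]
      exact ⟨⟨0, hn⟩, by rw [if_pos rfl]; exact one_ne_zero⟩
    · have : (Finset.univ.filter fun a => cP a (∑ j, eT.{u} (f j) + ∑ j, eR.{u} (f j)) ≠ 0) ⊆
          Finset.univ.image f := by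
        intro a ha
        rw [Finset.mem_filter, cP_gen f, sum_ne_zero_iff] at ha
        obtain ⟨_, j, hj⟩ := ha
        rw [Finset.mem_image]
        refine ⟨j, Finset.mem_univ _, ?_⟩
        by_contra hne
        exact hj (if_neg fun e => hne e.symm)
      refine (Finset.card_le_card this).trans (Finset.card_image_le.trans ?_)
      rw [Finset.card_univ, Fintype.card_fin]
  · intro hcon
    have h1 := hcon.2.2
    have h2 : (Finset.univ.filter fun a : Fin m =>
        cP a (∑ i : Fin m, eT.{u} i + ∑ i : Fin m, eR.{u} i) ≠ 0) = Finset.univ := by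
      apply Finset.filter_true_of_mem
      intro a _
      rw [cP_gen (fun i => i), sum_ne_zero_iff]
      exact ⟨a, by rw [if_pos rfl]; exact one_ne_zero⟩
    rw [h2, Finset.card_univ, Fintype.card_fin] at h1
    omega

/-! ### The case `m < n` -/

/-- The set for `m < n`. -/
def G2 (m n : ℕ) : Set (MM.{u} m) :=
  {z | (∀ a, cP a z ≠ 0 ↔ cQ a z ≠ 0) ∧ (∃ a, cP a z ≠ 0) ∧
    ∑ a, cP a z ≤ n ∧ ∑ a, cQ a z ≤ n ∧ ∃ a, 2 ≤ cP a z ∨ 2 ≤ cQ a z}

theorem aux_sum {p q : Fin m → ℕ} (h : ∑ a, (p a + n * q a) ≤ n) {a b : Fin m}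
    (hp : p a ≠ 0) : q b = 0 := by
  rw [Finset.sum_add_distrib, ← Finset.mul_sum] at h
  have h1 : p a ≤ ∑ a, p a := Finset.single_le_sum (fun _ _ => Nat.zero_le _) (Finset.mem_univ a)
  have h2 : q b ≤ ∑ a, q a := Finset.single_le_sum (fun _ _ => Nat.zero_le _) (Finset.mem_univ b)
  by_contra hq
  have h3 : n * 1 ≤ n * ∑ a, q a := Nat.mul_le_mul_left n (by omega)
  omega

theorem G2_rc (hm : 2 ≤ m) (h : m < n) : RC m n (G2.{u} m n) := by
  intro s X hs hf
  obtain ⟨k, rfl⟩ : ∃ k, n = m + (k + 1) := ⟨n - m - 1, by omega⟩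
  have hsurj : ∀ i0 : Fin m, s + ∑ i, X i + (k + 1) • X i0 ∈ G2.{u} m (m + (k + 1)) := by
    intro i0
    have := hf (Fin.addCases (fun i => i) fun _ => i0)
    rw [Fin.sum_univ_add] at this
    simp only [Fin.addCases_left, Fin.addCases_right, Finset.sum_const, Finset.card_univ,
      Fintype.card_fin] at this
    rw [add_assoc]
    exact this
  have i0 : Fin m := ⟨0, by omega⟩
  have hPle : ∀ (a i : Fin m), cP a (X i) ≤ cP a (s + ∑ i, X i) := by
    intro a i
    rw [map_add, map_sum]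
    have : cP a (X i) ≤ ∑ i, cP a (X i) :=
      Finset.single_le_sum (f := fun i => cP a (X i)) (fun _ _ => Nat.zero_le _)
        (Finset.mem_univ i)
    omega
  have hQle : ∀ (a i : Fin m), cQ a (X i) ≤ cQ a (s + ∑ i, X i) := by
    intro a i
    rw [map_add, map_sum]
    have : cQ a (X i) ≤ ∑ i, cQ a (X i) :=
      Finset.single_le_sum (f := fun i => cQ a (X i)) (fun _ _ => Nat.zero_le _)
        (Finset.mem_univ i)
    omega
  have hPw : ∀ (a i : Fin m), cP a (s + ∑ i, X i + (k + 1) • X i) =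
      cP a (s + ∑ i, X i) + (k + 1) * cP a (X i) := by
    intro a i
    rw [map_add _ (s + ∑ i, X i), map_nsmul, smul_eq_mul]
  have hQw : ∀ (a i : Fin m), cQ a (s + ∑ i, X i + (k + 1) • X i) =
      cQ a (s + ∑ i, X i) + (k + 1) * cQ a (X i) := by
    intro a i
    rw [map_add _ (s + ∑ i, X i), map_nsmul, smul_eq_mul]
  have hP0 : ∀ (a i : Fin m), cP a (s + ∑ i, X i + (k + 1) • X i) ≠ 0 ↔
      cP a (s + ∑ i, X i) ≠ 0 := by
    intro a i
    rw [hPw]
    constructor
    · intro h1 h2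
      have := hPle a i
      have h3 : cP a (X i) = 0 := by omega
      rw [h2, h3] at h1
      exact h1 (by simp)
    · intro h1 h2
      exact h1 (by omega)
  have hQ0 : ∀ (a i : Fin m), cQ a (s + ∑ i, X i + (k + 1) • X i) ≠ 0 ↔
      cQ a (s + ∑ i, X i) ≠ 0 := by
    intro a i
    rw [hQw]
    constructor
    · intro h1 h2
      have := hQle a i
      have h3 : cQ a (X i) = 0 := by omega
      rw [h2, h3] at h1
      exact h1 (by simp)
    · intro h1 h2
      exact h1 (by omega)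
  obtain ⟨w1, ⟨a1, w2⟩, w3, w4, w5⟩ := hsurj i0
  refine ⟨fun a => ?_, ⟨a1, (hP0 a1 i0).1 w2⟩, ?_, ?_, ?_⟩
  · rw [← hP0 a i0, ← hQ0 a i0]
    exact w1 a
  · refine le_trans (Finset.sum_le_sum fun a _ => ?_) w3
    rw [hPw]
    exact Nat.le_add_right _ _
  · refine le_trans (Finset.sum_le_sum fun a _ => ?_) w4
    rw [hQw]
    exact Nat.le_add_right _ _
  · by_contra hcon
    push Not at hcon
    -- every `X i` is nonzero
    have hX : ∀ i, (∃ a, cP a (X i) ≠ 0) ∨ ∃ a, cQ a (X i) ≠ 0 := by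
      intro i
      obtain ⟨_, _, _, _, a, ha⟩ := hsurj i
      rw [hPw, hQw] at ha
      have hc := hcon a
      rcases ha with ha | ha
      · left
        refine ⟨a, fun h0 => ?_⟩
        rw [h0, mul_zero, add_zero] at ha
        omega
      · right
        refine ⟨a, fun h0 => ?_⟩
        rw [h0, mul_zero, add_zero] at ha
        omega
    have hconst : ∀ i, s + (m + (k + 1)) • X i ∈ G2.{u} m (m + (k + 1)) := by
      intro i
      have := hf fun _ => i
      rwa [Finset.sum_const, Finset.card_univ, Fintype.card_fin] at this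
    have hPc : ∀ (a i : Fin m), cP a (s + (m + (k + 1)) • X i) =
        cP a s + (m + (k + 1)) * cP a (X i) := by
      intro a i
      rw [map_add _ s, map_nsmul, smul_eq_mul]
    have hQc : ∀ (a i : Fin m), cQ a (s + (m + (k + 1)) • X i) =
        cQ a s + (m + (k + 1)) * cQ a (X i) := by
      intro a i
      rw [map_add _ s, map_nsmul, smul_eq_mul]
    have hPs : ∀ i a b, cP a s ≠ 0 → cP b (X i) = 0 := by
      intro i a b ha
      have := (hconst i).2.2.1
      simp only [hPc] at this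
      exact aux_sum (p := fun a => cP a s) (q := fun a => cP a (X i)) this ha
    have hQs : ∀ i a b, cQ a s ≠ 0 → cQ b (X i) = 0 := by
      intro i a b ha
      have := (hconst i).2.2.2.1
      simp only [hQc] at this
      exact aux_sum (p := fun a => cQ a s) (q := fun a => cQ a (X i)) this ha
    obtain ⟨a0, ha0⟩ := MM_ne_zero hs
    rcases ha0 with ha0 | ha0
    · -- all first coordinates of `X i` vanish
      have key : ∀ i, 1 ≤ cQ a0 (X i) := by
        intro i
        have h1 := ((hconst i).1 a0).1 (by rw [hPc]; omega)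
        rw [hQc] at h1
        by_contra h2
        have h3 : cQ a0 (X i) = 0 := by omega
        rw [h3, mul_zero, add_zero] at h1
        rcases hX i with ⟨b, hb⟩ | ⟨b, hb⟩
        · exact hb (hPs i a0 b ha0)
        · exact hb (hQs i a0 b h1)
      have h4 : ∑ i : Fin m, 1 ≤ ∑ i, cQ a0 (X i) := Finset.sum_le_sum fun i _ => key i
      rw [Finset.sum_const, Finset.card_univ, Fintype.card_fin, smul_eq_mul, mul_one] at h4
      have h5 := (hcon a0).2
      rw [map_add, map_sum] at h5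
      omega
    · have key : ∀ i, 1 ≤ cP a0 (X i) := by
        intro i
        have h1 := ((hconst i).1 a0).2 (by rw [hQc]; omega)
        rw [hPc] at h1
        by_contra h2
        have h3 : cP a0 (X i) = 0 := by omega
        rw [h3, mul_zero, add_zero] at h1
        rcases hX i with ⟨b, hb⟩ | ⟨b, hb⟩
        · exact hb (hPs i a0 b h1)
        · exact hb (hQs i a0 b ha0)
      have h4 : ∑ i : Fin m, 1 ≤ ∑ i, cP a0 (X i) := Finset.sum_le_sum fun i _ => key i
      rw [Finset.sum_const, Finset.card_univ, Fintype.card_fin, smul_eq_mul, mul_one] at h4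
      have h5 := (hcon a0).1
      rw [map_add, map_sum] at h5
      omega

theorem not_closed_of_gt (hm : 2 ≤ m) (h : m < n) : ¬ ClosedUnderH.{u} m n := by
  have hn : 1 ≤ n := by omega
  have H : Hyp m n (fT.{u} m) (fR m) (G2 m n) := by
    apply hyp_of (by omega) hn (G2_rc hm h) (fun z hz => hz.2.1)
    intro v
    refine ⟨⟨fun _ => n + 1, fun _ => 1⟩, fun hcon => ?_⟩
    have h1 := hcon.2.2.1
    have h2 : cP (⟨0, by omega⟩ : Fin m) (v + (⟨fun _ => n + 1, fun _ => 1⟩ : MM.{u} m)) ≤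
        ∑ a, cP a (v + (⟨fun _ => n + 1, fun _ => 1⟩ : MM.{u} m)) :=
      Finset.single_le_sum (f := fun a => cP a (v + (⟨fun _ => n + 1, fun _ => 1⟩ : MM.{u} m)))
        (fun _ _ => Nat.zero_le _) (Finset.mem_univ _)
    rw [map_add] at h2
    have h3 : cP (⟨0, by omega⟩ : Fin m) (⟨fun _ => n + 1, fun _ => 1⟩ : MM.{u} m) = n + 1 := rfl
    omega
  apply main_construction H hm eT eR (fun i a => cQ_eT _ _) (fun i a => cP_eR _ _)
    eR_ne eT_ne
  · intro f
    have hsum : ∑ a : Fin m, ∑ j : Fin n, (if a = f j then 1 else 0) = n := by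
      rw [Finset.sum_comm]
      simp
    refine ⟨fun a => ?_, ⟨f ⟨0, hn⟩, ?_⟩, ?_, ?_, ?_⟩
    · rw [cP_gen f, cQ_gen f]
    · rw [cP_gen f, sum_ne_zero_iff]
      exact ⟨⟨0, hn⟩, by rw [if_pos rfl]; exact one_ne_zero⟩
    · simp only [cP_gen f]
      exact hsum.le
    · simp only [cQ_gen f]
      exact hsum.le
    · obtain ⟨j, j', hne, he⟩ := Fintype.exists_ne_map_eq_of_card_lt f (by simpa using h)
      refine ⟨f j, Or.inl ?_⟩
      rw [cP_gen f]
      have h1 : ∑ i ∈ ({j, j'} : Finset (Fin n)), (if f j = f i then 1 else 0) ≤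
          ∑ i, (if f j = f i then 1 else 0) :=
        Finset.sum_le_sum_of_subset (Finset.subset_univ _)
      rw [Finset.sum_pair hne, if_pos rfl, if_pos he] at h1
      exact h1
  · intro hcon
    obtain ⟨_, _, _, _, a, ha⟩ := hcon
    rw [cP_gen (fun i => i), cQ_gen (fun i => i)] at ha
    simp at ha

end

end Pool.Agent.Helper48.Knotted
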