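import Pool.Agent.Helper48.Knotted.Nucl

/-!
# The homomorphic image: elements and rules
-/

namespace Pool.Agent.Helper48.Knotted

universe u

set_option linter.unusedVariables false

section faces

variable {M : Type u} [AddCommMonoid M]

/-- Saturated submonoids. -/
structure Face (P : Set M) : Prop where
  zero : (0 : M) ∈ P
  add : ∀ a b : M, a + b ∈ P ↔ a ∈ P ∧ b ∈ P

theorem Face.sum {P : Set M} (h : Face P) {k : ℕ} (X : Fin k → M) :
    ∑ i, X i ∈ P ↔ ∀ i, X i ∈ P := by
  induction k with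
  | zero => simp [h.zero]
  | succ k ih =>
    rw [Fin.sum_univ_castSucc, h.add, ih]
    constructor
    · rintro ⟨h1, h2⟩ i
      exact Fin.lastCases h2 h1 i
    · intro h1
      exact ⟨fun i => h1 _, h1 _⟩

variable {m n : ℕ}

theorem Face.fc {P : Set M} (h : Face P) (hm : 1 ≤ m) (hn : 1 ≤ n) : FC m n P := by
  intro s X hf
  rw [h.add, h.sum]
  refine ⟨((h.add _ _).1 (hf fun _ => ⟨0, hm⟩)).1, fun i => ?_⟩
  have := ((h.add _ _).1 (hf fun _ => i)).2
  exact (h.sum _).1 this ⟨0, hn⟩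

theorem Face.fc_not {P : Set M} (h : Face P) (hm : 1 ≤ m) : FC m n {z | z ∉ P} := by
  intro s X hf hP
  rw [h.add, h.sum] at hP
  exact hf (fun _ => ⟨0, hm⟩) ((h.add _ _).2 ⟨hP.1, (h.sum _).2 fun j => hP.2 _⟩)

theorem Face.fc_imp {P Q : Set M} (h : Face P) (hQ : Face Q) (hm : 1 ≤ m) (hn : 1 ≤ n) :
    FC m n {z | z ∈ P → z ∈ Q} := by
  intro s X hf hP
  rw [h.add, h.sum] at hP
  apply hQ.fc hm hn
  intro f
  exact hf f ((h.add _ _).2 ⟨hP.1, (h.sum _).2 fun j => hP.2 _⟩)

end faces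

/-- The tags. -/
inductive Tag
  | b
  | c
  | t

/-- minimum of tags -/
def Tag.mn : Tag → Tag → Tag
  | .b, _ => .b
  | .c, .b => .b
  | .c, _ => .c
  | .t, j => j

/-- maximum of tags -/
def Tag.mx : Tag → Tag → Tag
  | .b, j => j
  | .c, .t => .t
  | .c, _ => .c
  | .t, _ => .t

/-- Raw middle elements. -/
@[ext] structure KX (M : Type u) where
  s : Set M
  i : Tag

section kx

variable {M : Type u} [AddCommMonoid M]

/-- The hypotheses of the construction. -/
structure Hyp (m n : ℕ) (PT PR G : Set M) : Prop where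
  hm : 1 ≤ m
  hn : 1 ≤ n
  zero : ∀ a b : M, a + b = 0 → a = 0 ∧ b = 0
  pt : Face PT
  pr : Face PR
  ptne : ∃ τ ∈ PT, τ ≠ 0
  disj : ∀ z, z ∈ PT → z ∈ PR → z = 0
  grc : RC m n G
  gpr : ∀ z ∈ G, z ∉ PR
  gw : ∀ u, ∃ w, u + w ∉ G

variable {m n : ℕ} {PT PR G : Set M}

theorem Hyp.face0 (h : Hyp m n PT PR G) : Face ({0} : Set M) where
  zero := rfl
  add a b := by
    constructor
    · intro hab
      exact h.zero a b hab
    · rintro ⟨ha, hb⟩
      rw [Set.mem_singleton_iff] at *
      rw [ha, hb, add_zero]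

/-- A set containing a nonzero element of `P` is everything. -/
def UP (P S : Set M) : Prop := ∀ ρ ∈ S, ρ ∈ P → ρ ≠ 0 → S = Set.univ

/-- The elements of the `t`-part (for `P = PT`, `P' = PR`) and the `r`-part (exchanged). -/
def QP (P P' : Set M) (t : TT m n M) : Prop :=
  UP P' t.1 ∧ (t.1 ⊆ P ∨ ∃ τ ∈ P, ∀ z, τ + z ∈ t.1)

/-- Condition for the middle elements. -/
def OK (m n : ℕ) (PR G : Set M) (x : KX M) : Prop :=
  (x.i = .b ∧ x.s = ∅) ∨ (x.i = .c ∧ x.s ⊆ G ∧ RC m n x.s) ∨
    (x.i = .t ∧ FC m n x.s ∧ UP PR x.s)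

/-- tag part of the context relation -/
def zt (PT : Set M) : Tag → Tag → M → Prop
  | .b, _, _ => True
  | .c, .b, z => z ∉ PT
  | .c, .c, z => z ∈ PT → z = 0
  | .c, .t, _ => True
  | .t, .b, z => z ∉ PT
  | .t, .c, z => z ∉ PT
  | .t, .t, _ => True

/-- The context relation. -/
def ZZ (PT : Set M) (x w : KX M) : Set M :=
  {z | zt PT x.i w.i z ∧ (0 ∈ x.s → w.i = .t) ∧ ∀ u ∈ x.s, z + u ∈ w.s}

/-! ### Operations -/

/-- bottom -/
def KX.bot : KX M := ⟨∅, .b⟩

/-- meet -/
def KX.meet (x y : KX M) : KX M := ⟨x.s ∩ y.s, x.i.mn y.i⟩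

/-- join -/
def KX.join (m n : ℕ) (x y : KX M) : KX M :=
  match x.i.mx y.i with
  | .b => ⟨∅, .b⟩
  | .c => ⟨rcl m n (x.s ∪ y.s), .c⟩
  | .t => ⟨cl m n (x.s ∪ y.s), .t⟩

open Classical in
/-- action -/
noncomputable def KX.act (t : TT m n M) (x : KX M) : KX M :=
  if t.1 = ∅ then ⟨∅, .b⟩ else if t.1 = {0} then x else if x.i = .b then ⟨∅, .b⟩ else
    ⟨cl m n (Set.image2 (· + ·) t.1 x.s), .t⟩

/-- power -/
def pw (r : TT m n M) (S : Set M) : Set M := {u | ∀ ρ ∈ r.1, u + ρ ∈ S}

open Classical in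
/-- residual -/
noncomputable def KX.res (r : TT m n M) (x : KX M) : KX M :=
  if x.i = .t ∨ 0 ∉ r.1 then ⟨pw r x.s, .t⟩ else
    if x.i = .c ∧ r.1 ≠ Set.univ then ⟨pw r x.s, .c⟩ else ⟨pw r x.s, .b⟩

/-! ### Basic facts -/

theorem OK.rc (H : Hyp m n PT PR G) {x : KX M} (h : OK m n PR G x) : RC m n x.s := by
  rcases h with ⟨_, h⟩ | ⟨_, _, h⟩ | ⟨_, h, _⟩
  · rw [h]; exact (FC.empty' H.hm).rc
  · exact h
  · exact h.rc

theorem OK.pr' (H : Hyp m n PT PR G) {x : KX M} (h : OK m n PR G x) {ρ : M} (h1 : ρ ∈ x.s)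
    (h2 : ρ ∈ PR) : x.i = .t ∧ (ρ ≠ 0 → x.s = Set.univ) := by
  rcases h with ⟨_, h⟩ | ⟨_, h, _⟩ | ⟨h, _, h'⟩
  · rw [h] at h1; exact h1.elim
  · exact (H.gpr _ (h h1) h2).elim
  · exact ⟨h, h' ρ h1 h2⟩

theorem OK.zero (H : Hyp m n PT PR G) {x : KX M} (h : OK m n PR G x) (h1 : (0 : M) ∈ x.s) :
    x.i = .t := (h.pr' H h1 H.pr.zero).1

theorem OK.fc {x : KX M} (h : OK m n PR G x) (h1 : x.i = .t) : FC m n x.s := by
  rcases h with ⟨h, _⟩ | ⟨h, _, _⟩ | ⟨_, h, _⟩
  · rw [h] at h1; cases h1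
  · rw [h] at h1; cases h1
  · exact h

theorem OK.emp {x : KX M} (h : OK m n PR G x) (h1 : x.i = .b) : x.s = ∅ := by
  rcases h with ⟨_, h⟩ | ⟨h, _, _⟩ | ⟨h, _, _⟩
  · exact h
  · rw [h] at h1; cases h1
  · rw [h] at h1; cases h1

theorem OK.sub {x : KX M} (h : OK m n PR G x) (h1 : x.i = .c) : x.s ⊆ G := by
  rcases h with ⟨h, _⟩ | ⟨_, h, _⟩ | ⟨h, _, _⟩
  · rw [h] at h1; cases h1
  · exact h
  · rw [h] at h1; cases h1

/-- For `OK w` and `u ≠ 0` or tag `t`, translations of `w` are fully closed. -/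
theorem OK.translate (H : Hyp m n PT PR G) {w : KX M} (h : OK m n PR G w) {u : M}
    (hu : w.i = .t ∨ u ≠ 0) : FC m n {z | z + u ∈ w.s} := by
  rcases hu with hu | hu
  · exact (h.fc hu).translate u
  · exact (h.rc H).translate_fc H.zero hu

theorem OK.translate' (H : Hyp m n PT PR G) {w : KX M} (h : OK m n PR G w) {u : M}
    (hu : w.i = .t ∨ u ≠ 0) : FC m n {z | u + z ∈ w.s} := by
  have := h.translate H hu
  have e : {z | u + z ∈ w.s} = {z | z + u ∈ w.s} := by
    ext z
    change u + z ∈ w.s ↔ z + u ∈ w.s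
    rw [add_comm]
  rw [e]
  exact this

theorem fc_ne_zero (H : Hyp m n PT PR G) : FC m n {z : M | z ≠ 0} :=
  H.face0.fc_not H.hm

theorem fc_not_pt (H : Hyp m n PT PR G) : FC m n {z : M | z ∉ PT} := H.pt.fc_not H.hm

theorem fc_imp_pt (H : Hyp m n PT PR G) : FC m n {z : M | z ∈ PT → z = 0} :=
  H.pt.fc_imp H.face0 H.hm H.hn

theorem fc_zt (H : Hyp m n PT PR G) (i j : Tag) : FC m n {z : M | zt PT i j z} := by
  rcases i with _ | _ | _ <;> rcases j with _ | _ | _
  · exact FC.univ'
  · exact FC.univ'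
  · exact FC.univ'
  · exact fc_not_pt H
  · exact fc_imp_pt H
  · exact FC.univ'
  · exact fc_not_pt H
  · exact fc_not_pt H
  · exact FC.univ'

theorem fc_ZZ (H : Hyp m n PT PR G) {x w : KX M} (hw : OK m n PR G w) :
    FC m n (ZZ PT x w) := by
  refine FC.and (fc_zt H _ _) ?_
  by_cases h0 : (0 : M) ∈ x.s → w.i = .t
  · refine FC.and (FC.const H.hm _) (FC.all fun u => FC.all fun hu => ?_)
    apply hw.translate H
    by_cases hu0 : u = 0
    · subst hu0
      exact Or.inl (h0 hu)
    · exact Or.inr hu0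
  · have : {z : M | (0 ∈ x.s → w.i = .t) ∧ ∀ u ∈ x.s, z + u ∈ w.s} = {z | False} := by
      ext z
      simp only [Set.mem_ofPred_eq]
      constructor
      · exact fun h => h0 h.1
      · exact fun h => h.elim
    rw [this]
    exact FC.const H.hm _

/-! ### The rules -/

theorem R0 (H : Hyp m n PT PR G) {x : KX M} (hx : OK m n PR G x) : (0 : M) ∈ ZZ PT x x := by
  refine ⟨?_, hx.zero H, fun u hu => by rwa [zero_add]⟩
  rcases h : x.i with _ | _ | _
  · trivial
  · exact fun _ => rfl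
  · trivial

theorem R1 (H : Hyp m n PT PR G) {x y : KX M} (h1 : (0 : M) ∈ ZZ PT x y)
    (h2 : (0 : M) ∈ ZZ PT y x) : x = y := by
  obtain ⟨a1, _, a3⟩ := h1
  obtain ⟨b1, _, b3⟩ := h2
  rcases x with ⟨X, i⟩
  rcases y with ⟨Y, j⟩
  have e1 : X = Y := by
    apply Set.Subset.antisymm
    · intro u hu
      have := a3 u hu
      rwa [zero_add] at this
    · intro u hu
      have := b3 u hu
      rwa [zero_add] at this
  have hp := H.pt.zero
  have e2 : i = j := by
    rcases i with _ | _ | _ <;> rcases j with _ | _ | _ <;>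
      first
        | rfl
        | exact absurd hp a1
        | exact absurd hp b1
  rw [e1, e2]

theorem zt_mn_left {i i' j : Tag} {z : M} (h : zt PT i j z) : zt PT (i.mn i') j z := by
  rcases i with _ | _ | _ <;> rcases i' with _ | _ | _ <;> rcases j with _ | _ | _ <;>
    first
      | trivial
      | exact h
      | exact fun h' => absurd h' h

theorem zt_mn_comm {i i' j : Tag} {z : M} (h : zt PT i' j z) : zt PT (i.mn i') j z := by
  rcases i with _ | _ | _ <;> rcases i' with _ | _ | _ <;> rcases j with _ | _ | _ <;>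
    first
      | trivial
      | exact h
      | exact fun h' => absurd h' h

theorem R2 {x y w : KX M} {z : M} (h : z ∈ ZZ PT x w) : z ∈ ZZ PT (x.meet y) w :=
  ⟨zt_mn_left h.1, fun h0 => h.2.1 h0.1, fun u hu => h.2.2 u hu.1⟩

theorem R2' {x y w : KX M} {z : M} (h : z ∈ ZZ PT y w) : z ∈ ZZ PT (x.meet y) w :=
  ⟨zt_mn_comm h.1, fun h0 => h.2.1 h0.2, fun u hu => h.2.2 u hu.2⟩

theorem R3 {x y w : KX M} {z : M} (h1 : z ∈ ZZ PT w x) (h2 : z ∈ ZZ PT w y) :
    z ∈ ZZ PT w (x.meet y) := by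
  refine ⟨?_, ?_, fun u hu => ⟨h1.2.2 u hu, h2.2.2 u hu⟩⟩
  · have a1 := h1.1
    have a2 := h2.1
    change zt PT w.i (x.i.mn y.i) z
    generalize w.i = k at *
    generalize x.i = i at *
    generalize y.i = j at *
    rcases i with _ | _ | _ <;> rcases j with _ | _ | _ <;>
      first
        | exact a1
        | exact a2
  · intro h0
    change x.i.mn y.i = .t
    rw [h1.2.1 h0, h2.2.1 h0]
    rfl

theorem meet_ok (H : Hyp m n PT PR G) {x y : KX M} (hx : OK m n PR G x) (hy : OK m n PR G y) :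
    OK m n PR G (x.meet y) := by
  have hrc := (hx.rc H).inter (hy.rc H)
  rcases x with ⟨X, i⟩
  rcases y with ⟨Y, j⟩
  rcases i with _ | _ | _
  · refine Or.inl ⟨rfl, ?_⟩
    have := hx.emp rfl
    change X ∩ Y = ∅
    change X = ∅ at this
    rw [this, Set.empty_inter]
  · rcases j with _ | _ | _
    · refine Or.inl ⟨rfl, ?_⟩
      have := hy.emp rfl
      change X ∩ Y = ∅
      change Y = ∅ at this
      rw [this, Set.inter_empty]
    · exact Or.inr (Or.inl ⟨rfl, fun z hz => hx.sub rfl hz.1, hrc⟩)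
    · exact Or.inr (Or.inl ⟨rfl, fun z hz => hx.sub rfl hz.1, hrc⟩)
  · rcases j with _ | _ | _
    · refine Or.inl ⟨rfl, ?_⟩
      have := hy.emp rfl
      change X ∩ Y = ∅
      change Y = ∅ at this
      rw [this, Set.inter_empty]
    · exact Or.inr (Or.inl ⟨rfl, fun z hz => hy.sub rfl hz.2, hrc⟩)
    · refine Or.inr (Or.inr ⟨rfl, (hx.fc rfl).inter (hy.fc rfl), ?_⟩)
      intro ρ h1 h2 h3
      have a1 : X = Set.univ := (hx.pr' H h1.1 h2).2 h3
      have a2 : Y = Set.univ := (hy.pr' H h1.2 h2).2 h3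
      change X ∩ Y = Set.univ
      rw [a1, a2, Set.inter_self]

theorem UP_cl (H : Hyp m n PT PR G) {P A : Set M} (hP : Face P)
    (h : (∃ ρ ∈ A, ρ ∈ P ∧ ρ ≠ 0) → A = Set.univ) : UP P (cl m n A) := by
  by_cases hA : ∃ ρ ∈ A, ρ ∈ P ∧ ρ ≠ 0
  · intro _ _ _ _
    have := h hA
    rw [this]
    exact Set.eq_univ_of_univ_subset (subset_cl _)
  · intro ρ h1 h2 h3
    have : cl m n A ⊆ {z | z ∈ P → z = 0} := by
      apply cl_subset (hP.fc_imp H.face0 H.hm H.hn)
      intro z hz hzP
      by_contra h0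
      exact hA ⟨z, hz, hzP, h0⟩
    exact absurd (this h1 h2) h3

theorem join_ok (H : Hyp m n PT PR G) {x y : KX M} (hx : OK m n PR G x) (hy : OK m n PR G y) :
    OK m n PR G (x.join m n y) := by
  have key : ∀ ρ ∈ x.s ∪ y.s, ρ ∈ PR → ρ ≠ 0 → x.s ∪ y.s = Set.univ := by
    rintro ρ (h | h) h2 h3
    · rw [(hx.pr' H h h2).2 h3, Set.univ_union]
    · rw [(hy.pr' H h h2).2 h3, Set.union_univ]
  have hT : OK m n PR G (⟨cl m n (x.s ∪ y.s), .t⟩ : KX M) := by
    refine Or.inr (Or.inr ⟨rfl, cl_fc _, UP_cl H H.pr ?_⟩)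
    rintro ⟨ρ, h1, h2, h3⟩
    exact key ρ h1 h2 h3
  unfold KX.join
  rcases hi : x.i with _ | _ | _ <;> rcases hj : y.i with _ | _ | _
  · exact Or.inl ⟨rfl, rfl⟩
  · refine Or.inr (Or.inl ⟨rfl, rcl_subset H.grc ?_, rcl_rc _⟩)
    apply Set.union_subset
    · rw [hx.emp hi]; exact Set.empty_subset _
    · exact hy.sub hj
  · exact hT
  · refine Or.inr (Or.inl ⟨rfl, rcl_subset H.grc ?_, rcl_rc _⟩)
    apply Set.union_subset
    · exact hx.sub hi
    · rw [hy.emp hj]; exact Set.empty_subset _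
  · refine Or.inr (Or.inl ⟨rfl, rcl_subset H.grc ?_, rcl_rc _⟩)
    apply Set.union_subset
    · exact hx.sub hi
    · exact hy.sub hj
  · exact hT
  · exact hT
  · exact hT
  · exact hT

theorem mx_cases (i j : Tag) : i.mx j = i ∨ i.mx j = j := by
  rcases i with _ | _ | _ <;> rcases j with _ | _ | _ <;> simp [Tag.mx]

theorem join_i (m n : ℕ) (x y : KX M) : (x.join m n y).i = x.i.mx y.i := by
  unfold KX.join
  split
  · rename_i h; rw [h]
  · rename_i h; rw [h]
  · rename_i h; rw [h]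

theorem join_s_sub (H : Hyp m n PT PR G) {x y : KX M} (hx : OK m n PR G x) (hy : OK m n PR G y) :
    x.s ∪ y.s ⊆ (x.join m n y).s := by
  unfold KX.join
  split
  · rename_i h
    have h1 : x.i = .b := by
      rcases hi : x.i with _ | _ | _ <;> rcases hj : y.i with _ | _ | _ <;>
        rw [hi, hj] at h <;> simp [Tag.mx] at h ⊢
    have h2 : y.i = .b := by
      rcases hi : x.i with _ | _ | _ <;> rcases hj : y.i with _ | _ | _ <;>
        rw [hi, hj] at h <;> simp [Tag.mx] at h ⊢
    rw [hx.emp h1, hy.emp h2, Set.union_self]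
  · exact subset_rcl _
  · exact subset_cl _

/-- `join` is below anything fully closed which contains both. -/
theorem join_s_le {x y : KX M} {S : Set M} (hS : FC m n S) (h : x.s ∪ y.s ⊆ S) :
    (x.join m n y).s ⊆ S := by
  unfold KX.join
  split
  · exact Set.empty_subset _
  · exact rcl_subset hS.rc h
  · exact cl_subset hS h

theorem join_s_le' {x y : KX M} {S : Set M} (hS : RC m n S) (h : x.s ∪ y.s ⊆ S)
    (ht : (x.join m n y).i ≠ .t) :
    (x.join m n y).s ⊆ S := by
  rw [join_i] at ht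
  unfold KX.join
  split
  · exact Set.empty_subset _
  · exact rcl_subset hS h
  · exact absurd ‹_› ht

theorem zt_z_ne {i j : Tag} {z : M} (H : Hyp m n PT PR G) (h : zt PT i j z) (hi : i = .t)
    (hj : j ≠ .t) : z ≠ 0 := by
  subst hi
  rintro rfl
  rcases j with _ | _ | _
  · exact h H.pt.zero
  · exact h H.pt.zero
  · exact hj rfl

theorem R4 (H : Hyp m n PT PR G) {x y w : KX M} (hx : OK m n PR G x) (hy : OK m n PR G y)
    (hw : OK m n PR G w) {z : M}
    (h1 : z ∈ ZZ PT x w) (h2 : z ∈ ZZ PT y w) : z ∈ ZZ PT (x.join m n y) w := by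
  have hzt : zt PT (x.join m n y).i w.i z := by
    rw [join_i]
    rcases mx_cases x.i y.i with h | h <;> rw [h]
    · exact h1.1
    · exact h2.1
  refine ⟨hzt, ?_, ?_⟩
  · intro h0
    by_contra hj
    have : (x.join m n y).s ⊆ {z | z ≠ 0} := by
      apply join_s_le (fc_ne_zero H)
      rintro u (hu | hu) rfl
      · exact hj (h1.2.1 hu)
      · exact hj (h2.2.1 hu)
    exact this h0 rfl
  · have hsub : x.s ∪ y.s ⊆ {u | z + u ∈ w.s} := by
      rintro u (hu | hu)
      · exact h1.2.2 u hu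
      · exact h2.2.2 u hu
    by_cases hj : w.i = .t
    · exact join_s_le (hw.translate' H (Or.inl hj)) hsub
    · by_cases hi : (x.join m n y).i = .t
      · exact join_s_le (hw.translate' H (Or.inr (zt_z_ne H hzt hi hj))) hsub
      · refine join_s_le' (S := {u | z + u ∈ w.s}) ?_ hsub hi
        have := (hw.rc H).translate H.zero z
        have e : {u | z + u ∈ w.s} = {u | u + z ∈ w.s} := by
          ext u
          change z + u ∈ w.s ↔ u + z ∈ w.s
          rw [add_comm]
        rw [e]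
        exact this

theorem zt_mx_left {i i' j : Tag} {z : M} (h : zt PT i j z) : zt PT i (j.mx i') z := by
  rcases i with _ | _ | _ <;> rcases i' with _ | _ | _ <;> rcases j with _ | _ | _ <;>
    first
      | trivial
      | exact h
      | exact fun h' => absurd h' h

theorem zt_mx_right {i i' j : Tag} {z : M} (h : zt PT i j z) : zt PT i (i'.mx j) z := by
  rcases i with _ | _ | _ <;> rcases i' with _ | _ | _ <;> rcases j with _ | _ | _ <;>
    first
      | trivial
      | exact h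
      | exact fun h' => absurd h' h

theorem R5 (H : Hyp m n PT PR G) {x y w : KX M} (hx : OK m n PR G x) (hy : OK m n PR G y)
    {z : M} (h : z ∈ ZZ PT w x) : z ∈ ZZ PT w (x.join m n y) := by
  refine ⟨?_, ?_, fun u hu => join_s_sub H hx hy (Or.inl (h.2.2 u hu))⟩
  · rw [join_i]
    exact zt_mx_left h.1
  · intro h0
    rw [join_i, h.2.1 h0]
    rfl

theorem R5' (H : Hyp m n PT PR G) {x y w : KX M} (hx : OK m n PR G x) (hy : OK m n PR G y)
    {z : M} (h : z ∈ ZZ PT w y) : z ∈ ZZ PT w (x.join m n y) := by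
  refine ⟨?_, ?_, fun u hu => join_s_sub H hx hy (Or.inr (h.2.2 u hu))⟩
  · rw [join_i]
    exact zt_mx_right h.1
  · intro h0
    rw [join_i, h.2.1 h0]
    rcases x.i with _ | _ | _ <;> rfl

/-! ### The action -/

theorem QP.exists_mem {P P' : Set M} {t : TT m n M} (h : QP P P' t) (ht : t.1 ≠ ∅) :
    ∃ τ ∈ P, τ ∈ t.1 := by
  obtain ⟨τ, hτ⟩ := Set.nonempty_iff_ne_empty.2 ht
  rcases h.2 with h | ⟨σ, h1, h2⟩
  · exact ⟨τ, h hτ, hτ⟩
  · refine ⟨σ, h1, ?_⟩
    have := h2 0
    rwa [add_zero] at this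

theorem UP_image2 {P A B : Set M} (hP : Face P) (hA : UP P A) (hB : UP P B)
    (h : ∃ ρ ∈ Set.image2 (· + ·) A B, ρ ∈ P ∧ ρ ≠ 0) : Set.image2 (· + ·) A B = Set.univ := by
  obtain ⟨_, ⟨a, ha, b, hb, rfl⟩, h1, h2⟩ := h
  have h1' : a + b ∈ P := h1
  have h2' : a + b ≠ 0 := h2
  rw [hP.add] at h1'
  have full1 : A = Set.univ → B = Set.univ → Set.image2 (· + ·) A B = Set.univ := by
    rintro rfl rfl
    apply Set.eq_univ_of_forall
    intro z
    exact ⟨z, trivial, 0, trivial, add_zero z⟩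
  by_cases ha0 : a = 0
  · subst ha0
    have hb0 : b ≠ 0 := by
      rintro rfl
      exact h2' (add_zero 0)
    have := hB b hb h1'.2 hb0
    subst this
    apply Set.eq_univ_of_forall
    intro z
    exact ⟨0, ha, z, trivial, zero_add z⟩
  · have hA' := hA a ha h1'.1 ha0
    by_cases hb0 : b = 0
    · subst hb0
      subst hA'
      apply Set.eq_univ_of_forall
      intro z
      exact ⟨z, trivial, 0, hb, add_zero z⟩
    · exact full1 hA' (hB b hb h1'.2 hb0)

theorem OK.up (H : Hyp m n PT PR G) {x : KX M} (h : OK m n PR G x) : UP PR x.s := by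
  intro ρ h1 h2 h3
  exact (h.pr' H h1 h2).2 h3

theorem bot_ok : OK m n PR G (⟨∅, .b⟩ : KX M) := Or.inl ⟨rfl, rfl⟩

theorem act_ok (H : Hyp m n PT PR G) {t : TT m n M} {x : KX M} (ht : QP PT PR t)
    (hx : OK m n PR G x) : OK m n PR G (x.act t) := by
  unfold KX.act
  split_ifs with h1 h2 h3
  · exact bot_ok
  · exact hx
  · exact bot_ok
  · refine Or.inr (Or.inr ⟨rfl, cl_fc _, UP_cl H H.pr ?_⟩)
    intro h
    exact UP_image2 H.pr ht.1 (hx.up H) h

theorem fc_ne (H : Hyp m n PT PR G) : FC m n ({0} : Set M) := H.face0.fc H.hm H.hn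

theorem ne_zero_add {a b : M} (H : Hyp m n PT PR G) (h : a ≠ 0) : a + b ≠ 0 :=
  fun e => h (H.zero a b e).1

theorem ne_add_zero {a b : M} (H : Hyp m n PT PR G) (h : b ≠ 0) : a + b ≠ 0 :=
  fun e => h (H.zero a b e).2

theorem R6 (H : Hyp m n PT PR G) {t : TT m n M} {x w : KX M} (ht : QP PT PR t)
    (hx : OK m n PR G x) (hw : OK m n PR G w) {z : M}
    (h : ∀ s ∈ t.1, z + s ∈ ZZ PT x w) : z ∈ ZZ PT (x.act t) w := by
  unfold KX.act
  split_ifs with h1 h2 h3
  · exact ⟨trivial, fun h => h.elim, fun u hu => hu.elim⟩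
  · have := h 0 (by rw [h2]; rfl)
    rwa [add_zero] at this
  · exact ⟨trivial, fun h => h.elim, fun u hu => hu.elim⟩
  · have hzt : zt PT .t w.i z := by
      -- a nonzero element of t which is in PT or arbitrary
      rcases hj : w.i with _ | _ | _
      · -- w.i = b
        rcases ht.2 with h4 | ⟨τ, hτ, h4⟩
        · obtain ⟨s, hs⟩ := Set.nonempty_iff_ne_empty.2 h1
          have := (h s hs).1
          rw [hj] at this
          intro hz
          have hzs : z + s ∈ PT := (H.pt.add _ _).2 ⟨hz, h4 hs⟩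
          rcases hi : x.i with _ | _ | _ <;> rw [hi] at this
          · exact h3 hi
          · exact this hzs
          · exact this hzs
        · have := (h _ (h4 0)).1
          rw [hj] at this
          intro hz
          have hzs : z + (τ + 0) ∈ PT := (H.pt.add _ _).2 ⟨hz, by rwa [add_zero]⟩
          rcases hi : x.i with _ | _ | _ <;> rw [hi] at this
          · exact h3 hi
          · exact this hzs
          · exact this hzs
      · -- w.i = c
        have main : ∀ s ∈ t.1, s ≠ 0 → s ∈ PT → z ∉ PT := by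
          intro s hs hs0 hsP hz
          have := (h s hs).1
          rw [hj] at this
          have hzs : z + s ∈ PT := (H.pt.add _ _).2 ⟨hz, hsP⟩
          rcases hi : x.i with _ | _ | _ <;> rw [hi] at this
          · exact h3 hi
          · exact ne_add_zero H hs0 (this hzs)
          · exact this hzs
        rcases ht.2 with h4 | ⟨τ, hτ, h4⟩
        · have : ∃ s ∈ t.1, s ≠ 0 := by
            by_contra hcon
            push Not at hcon
            obtain ⟨s, hs⟩ := Set.nonempty_iff_ne_empty.2 h1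
            apply h2
            apply Set.Subset.antisymm
            · intro y hy
              exact hcon y hy
            · rintro y rfl
              have := hcon s hs
              rwa [this] at hs
          obtain ⟨s, hs, hs0⟩ := this
          exact main s hs hs0 (h4 hs)
        · obtain ⟨σ, hσ, hσ0⟩ := H.ptne
          exact main _ (h4 σ) (ne_add_zero H hσ0) ((H.pt.add _ _).2 ⟨hτ, hσ⟩)
      · trivial
    refine ⟨hzt, ?_, ?_⟩
    · intro h0
      by_contra hj
      have : cl m n (Set.image2 (· + ·) t.1 x.s) ⊆ {z | z ≠ 0} := by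
        apply cl_subset (fc_ne_zero H)
        rintro _ ⟨a, ha, b, hb, rfl⟩
        change a + b ≠ 0
        intro e
        have hb0 := (H.zero _ _ e).2
        subst hb0
        exact hj ((h a ha).2.1 hb)
      exact this h0 rfl
    · have hor : w.i = .t ∨ z ≠ 0 := by
        by_cases hj : w.i = .t
        · exact Or.inl hj
        · exact Or.inr (zt_z_ne H hzt rfl hj)
      have : cl m n (Set.image2 (· + ·) t.1 x.s) ⊆ {u | z + u ∈ w.s} := by
        apply cl_subset (hw.translate' H hor)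
        rintro _ ⟨a, ha, b, hb, rfl⟩
        change z + (a + b) ∈ w.s
        rw [← add_assoc]
        exact (h a ha).2.2 b hb
      exact this

theorem R7 (H : Hyp m n PT PR G) {t : TT m n M} {x w : KX M} (hx : OK m n PR G x)
    {z s : M} (h : z ∈ ZZ PT w x) (hs : s ∈ t.1) : z + s ∈ ZZ PT w (x.act t) := by
  unfold KX.act
  split_ifs with h1 h2 h3
  · rw [h1] at hs
    exact hs.elim
  · rw [h2] at hs
    have hs0 : s = 0 := hs
    rw [hs0, add_zero]
    exact h
  · refine ⟨?_, ?_, ?_⟩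
    · have := h.1
      rw [h3] at this
      rcases hi : w.i with _ | _ | _ <;> rw [hi] at this
      · trivial
      · exact fun hz => this ((H.pt.add _ _).1 hz).1
      · exact fun hz => this ((H.pt.add _ _).1 hz).1
    · intro h0
      have := h.2.1 h0
      rw [h3] at this
      cases this
    · intro u hu
      have := h.2.2 u hu
      rw [hx.emp h3] at this
      exact this.elim
  · refine ⟨?_, fun _ => rfl, ?_⟩
    · rcases hi : w.i with _ | _ | _ <;> trivial
    · intro u hu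
      apply subset_cl
      exact ⟨s, hs, z + u, h.2.2 u hu, by change s + (z + u) = z + s + u; ac_rfl⟩

/-! ### The residual -/

theorem pw_fc {r : TT m n M} {S : Set M} (h : ∀ ρ ∈ r.1, FC m n {z | z + ρ ∈ S}) :
    FC m n (pw r S) := FC.all fun ρ => FC.all fun hρ => h ρ hρ

theorem res_ok (H : Hyp m n PT PR G) {r : TT m n M} {x : KX M} (hr : QP PR PT r)
    (hx : OK m n PR G x) : OK m n PR G (x.res r) := by
  unfold KX.res
  split_ifs with h1 h2
  · refine Or.inr (Or.inr ⟨rfl, ?_, ?_⟩)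
    · apply pw_fc
      intro ρ hρ
      apply hx.translate H
      rcases h1 with h1 | h1
      · exact Or.inl h1
      · right
        rintro rfl
        exact h1 hρ
    · intro u hu hu1 hu2
      change pw r x.s = Set.univ
      by_cases hre : r.1 = ∅
      · apply Set.eq_univ_of_forall
        intro z ρ hρ
        rw [hre] at hρ
        exact hρ.elim
      · obtain ⟨ρ, hρ1, hρ2⟩ := hr.exists_mem hre
        have := (hx.pr' H (hu ρ hρ2) ((H.pr.add _ _).2 ⟨hu1, hρ1⟩)).2 (ne_zero_add H hu2)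
        apply Set.eq_univ_of_forall
        intro z ρ' _
        rw [this]
        trivial
  · push Not at h1
    refine Or.inr (Or.inl ⟨rfl, ?_, ?_⟩)
    · intro u hu
      have := hu 0 h1.2
      rw [add_zero] at this
      exact hx.sub h2.1 this
    · exact RC.all fun ρ => RC.all fun _ => (hx.rc H).translate H.zero ρ
  · push Not at h1 h2
    refine Or.inl ⟨rfl, ?_⟩
    change pw r x.s = ∅
    rw [Set.eq_empty_iff_forall_notMem]
    intro u hu
    rcases hi : x.i with _ | _ | _
    · have := hu 0 h1.2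
      rw [hx.emp hi] at this
      exact this
    · obtain ⟨w, hw⟩ := H.gw u
      exact hw (hx.sub hi (hu w (by rw [h2 hi]; trivial)))
    · exact h1.1 hi

theorem R8 (H : Hyp m n PT PR G) {r : TT m n M} {x w : KX M} {z : M}
    (h : ∀ ρ ∈ r.1, z + ρ ∈ ZZ PT w x) : z ∈ ZZ PT w (x.res r) := by
  have h3 : ∀ u ∈ w.s, z + u ∈ pw r x.s := by
    intro u hu ρ hρ
    rw [add_right_comm]
    exact (h ρ hρ).2.2 u hu
  unfold KX.res
  split_ifs with h1 h2
  · refine ⟨?_, fun _ => rfl, h3⟩
    rcases hi : w.i with _ | _ | _ <;> trivial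
  · push Not at h1
    have h0 := h 0 h1.2
    rw [add_zero] at h0
    refine ⟨?_, ?_, h3⟩
    · have := h0.1
      rw [h2.1] at this
      exact this
    · intro hw
      exact absurd (h0.2.1 hw) h1.1
  · push Not at h1 h2
    have h0 := h 0 h1.2
    rw [add_zero] at h0
    refine ⟨?_, ?_, h3⟩
    · change zt PT w.i .b z
      rcases hi : x.i with _ | _ | _
      · have := h0.1
        rw [hi] at this
        exact this
      · obtain ⟨σ, hσ, hσ0⟩ := H.ptne
        have := (h σ (by rw [h2 hi]; trivial)).1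
        rw [hi] at this
        rcases hj : w.i with _ | _ | _ <;> rw [hj] at this
        · trivial
        · intro hz
          exact ne_add_zero H hσ0 (this ((H.pt.add _ _).2 ⟨hz, hσ⟩))
        · intro hz
          exact this ((H.pt.add _ _).2 ⟨hz, hσ⟩)
      · exact absurd hi h1.1
    · intro hw
      exact absurd (h0.2.1 hw) h1.1

theorem R9 (H : Hyp m n PT PR G) {r : TT m n M} {x w : KX M} (hr : QP PR PT r)
    (hx : OK m n PR G x) {z ρ : M} (h : z ∈ ZZ PT x w) (hρ : ρ ∈ r.1) :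
    z + ρ ∈ ZZ PT (x.res r) w := by
  have h3 : ∀ u ∈ pw r x.s, z + ρ + u ∈ w.s := by
    intro u hu
    have := h.2.2 _ (hu ρ hρ)
    have e : z + ρ + u = z + (u + ρ) := by ac_rfl
    rw [e]
    exact this
  have hnot : (0 : M) ∉ r.1 → ρ ∉ PT := by
    intro h0 hP
    have hρ0 : ρ ≠ 0 := by rintro rfl; exact h0 hρ
    have := hr.1 ρ hρ hP hρ0
    rw [this] at h0
    exact h0 trivial
  unfold KX.res
  split_ifs with h1 h2
  · refine ⟨?_, ?_, h3⟩
    · change zt PT .t w.i (z + ρ)
      have hz := h.1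
      by_cases h0 : (0 : M) ∈ r.1
      · have hi : x.i = .t := by
          rcases h1 with h1 | h1
          · exact h1
          · exact absurd h0 h1
        rw [hi] at hz
        rcases hj : w.i with _ | _ | _ <;> rw [hj] at hz
        · exact fun hP => hz ((H.pt.add _ _).1 hP).1
        · exact fun hP => hz ((H.pt.add _ _).1 hP).1
        · trivial
      · rcases hj : w.i with _ | _ | _
        · exact fun hP => hnot h0 ((H.pt.add _ _).1 hP).2
        · exact fun hP => hnot h0 ((H.pt.add _ _).1 hP).2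
        · trivial
    · intro h0
      by_cases hr0 : (0 : M) ∈ r.1
      · have := h0 0 hr0
        rw [add_zero] at this
        exact h.2.1 this
      · have hne : r.1 ≠ ∅ := by
          intro e
          rw [e] at hρ
          exact hρ
        obtain ⟨σ, hσ1, hσ2⟩ := hr.exists_mem hne
        have hσ0 : σ ≠ 0 := by rintro rfl; exact hr0 hσ2
        have h5 := h0 σ hσ2
        rw [zero_add] at h5
        have := (hx.pr' H h5 hσ1).2 hσ0
        apply h.2.1
        rw [this]
        trivial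
  · push Not at h1
    refine ⟨?_, ?_, h3⟩
    · change zt PT .c w.i (z + ρ)
      have hz := h.1
      rw [h2.1] at hz
      rcases hj : w.i with _ | _ | _ <;> rw [hj] at hz
      · exact fun hP => hz ((H.pt.add _ _).1 hP).1
      · intro hP
        have hP' := (H.pt.add _ _).1 hP
        have hz0 := hz hP'.1
        by_cases hρ0 : ρ = 0
        · rw [hz0, hρ0, add_zero]
        · exact absurd (hr.1 ρ hρ hP'.2 hρ0) h2.2
      · trivial
    · intro h0
      have := h0 0 h1.2
      rw [add_zero] at this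
      exact h.2.1 this
  · push Not at h1
    refine ⟨trivial, ?_, h3⟩
    intro h0
    have := h0 0 h1.2
    rw [add_zero] at this
    exact h.2.1 this

/-! ### Closure properties of `QP` -/

theorem QP.inf {P P' : Set M} (hP : Face P) {a b : TT m n M} (ha : QP P P' a)
    (hb : QP P P' b) : QP P P' (a ⊓ b) := by
  constructor
  · intro ρ h1 h2 h3
    have e1 := ha.1 ρ h1.1 h2 h3
    have e2 := hb.1 ρ h1.2 h2 h3
    change a.1 ∩ b.1 = Set.univ
    rw [e1, e2, Set.inter_self]
  · rcases ha.2 with h | ⟨τ, hτ, h⟩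
    · exact Or.inl fun z hz => h hz.1
    · rcases hb.2 with h' | ⟨σ, hσ, h'⟩
      · exact Or.inl fun z hz => h' hz.2
      · refine Or.inr ⟨τ + σ, (hP.add _ _).2 ⟨hτ, hσ⟩, fun z => ⟨?_, ?_⟩⟩
        · rw [add_assoc]; exact h _
        · rw [add_comm τ, add_assoc]; exact h' _

theorem QP.sup (H : Hyp m n PT PR G) {P P' : Set M} (hP : Face P) (hP' : Face P')
    {a b : TT m n M} (ha : QP P P' a) (hb : QP P P' b) : QP P P' (a ⊔ b) := by
  constructor
  · apply UP_cl H hP'
    rintro ⟨ρ, h1 | h1, h2, h3⟩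
    · rw [ha.1 ρ h1 h2 h3, Set.univ_union]
    · rw [hb.1 ρ h1 h2 h3, Set.union_univ]
  · rcases ha.2 with h | ⟨τ, hτ, h⟩
    · rcases hb.2 with h' | ⟨σ, hσ, h'⟩
      · exact Or.inl (cl_subset (hP.fc H.hm H.hn) (Set.union_subset h h'))
      · exact Or.inr ⟨σ, hσ, fun z => subset_cl _ (Or.inr (h' z))⟩
    · exact Or.inr ⟨τ, hτ, fun z => subset_cl _ (Or.inl (h z))⟩

theorem QP.mul (H : Hyp m n PT PR G) {P P' : Set M} (hP : Face P) (hP' : Face P')
    {a b : TT m n M} (ha : QP P P' a) (hb : QP P P' b) : QP P P' (a * b) := by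
  constructor
  · apply UP_cl H hP'
    intro h
    exact UP_image2 hP' ha.1 hb.1 h
  · by_cases ha0 : a.1 = ∅
    · left
      rw [TT.mul_val, ha0, Set.image2_empty_left]
      exact cl_subset (hP.fc H.hm H.hn) (Set.empty_subset _)
    by_cases hb0 : b.1 = ∅
    · left
      rw [TT.mul_val, hb0, Set.image2_empty_right]
      exact cl_subset (hP.fc H.hm H.hn) (Set.empty_subset _)
    obtain ⟨σ1, hσ1, hσ1'⟩ := ha.exists_mem ha0
    obtain ⟨σ2, hσ2, hσ2'⟩ := hb.exists_mem hb0
    rcases ha.2 with h | ⟨τ, hτ, h⟩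
    · rcases hb.2 with h' | ⟨σ, hσ, h'⟩
      · left
        refine cl_subset (hP.fc H.hm H.hn) ?_
        rintro _ ⟨x, hx, y, hy, rfl⟩
        exact (hP.add _ _).2 ⟨h hx, h' hy⟩
      · refine Or.inr ⟨σ1 + σ, (hP.add _ _).2 ⟨hσ1, hσ⟩, fun z => ?_⟩
        rw [add_assoc]
        exact TT.add_mem_mul hσ1' (h' z)
    · refine Or.inr ⟨σ2 + τ, (hP.add _ _).2 ⟨hσ2, hτ⟩, fun z => ?_⟩
      rw [add_assoc, add_comm]
      exact TT.add_mem_mul (h z) hσ2'

theorem one_val' (H : Hyp m n PT PR G) : (1 : TT m n M).1 = {0} := by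
  rw [TT.one_val]
  exact (cl_subset (fc_ne H) (Set.Subset.refl _)).antisymm (subset_cl _)

theorem QP.one (H : Hyp m n PT PR G) {P P' : Set M} (hP : Face P) :
    QP P P' (1 : TT m n M) := by
  constructor
  · intro ρ h1 _ h3
    rw [one_val' H] at h1
    exact absurd h1 h3
  · left
    rw [one_val' H]
    rintro _ rfl
    exact hP.zero

theorem QP.top {P P' : Set M} (hP : Face P) : QP P P' (TT.top' : TT m n M) :=
  ⟨fun _ _ _ _ => rfl, Or.inr ⟨0, hP.zero, fun _ => trivial⟩⟩

theorem QP.imp (H : Hyp m n PT PR G) {P P' : Set M} (hP : Face P) (hP' : Face P')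
    {r t : TT m n M} (hr : QP P' P r) (ht : QP P P' t) : QP P P' (TT.imp' r t) := by
  by_cases hr0 : r.1 = ∅
  · have : (TT.imp' r t).1 = Set.univ := by
      apply Set.eq_univ_of_forall
      intro z s hs
      rw [hr0] at hs
      exact hs.elim
    constructor
    · intro _ _ _ _
      exact this
    · exact Or.inr ⟨0, hP.zero, fun z => by rw [this]; trivial⟩
  · obtain ⟨σ, hσ, hσ'⟩ := hr.exists_mem hr0
    constructor
    · intro ρ h1 h2 h3
      have := ht.1 _ (h1 σ hσ') ((hP'.add _ _).2 ⟨h2, hσ⟩) (ne_zero_add H h3)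
      apply Set.eq_univ_of_forall
      intro z s _
      rw [this]
      trivial
    · rcases ht.2 with h | ⟨τ, hτ, h⟩
      · left
        intro z hz
        exact ((hP.add _ _).1 (h (hz σ hσ'))).1
      · right
        refine ⟨τ, hτ, fun z s _ => ?_⟩
        rw [add_assoc]
        exact h _

end kx

end Pool.Agent.Helper48.Knotted
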