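import Pool.Agent.Helper48.Knotted.Defs

/-!
# A four-level involutive commutative residuated lattice
-/

namespace Pool.Agent.Helper48.Knotted

universe u

set_option linter.unusedSimpArgs false
set_option linter.unusedSectionVars false

/-- Data for the construction. -/
structure ActData (T X : Type u) [Lattice T] [CommMonoid T] [Lattice X] where
  timp : T → T → T
  ttop : T
  xbot : X
  act : T → X → X
  ra : T → X → X
  rb : X → X → T
  le_ttop : ∀ a, a ≤ ttop
  xbot_le : ∀ a, xbot ≤ a
  timp_iff : ∀ a b c, a * b ≤ c ↔ b ≤ timp a c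
  act_ra : ∀ t a b, act t a ≤ b ↔ a ≤ ra t b
  act_rb : ∀ t a b, act t a ≤ b ↔ t ≤ rb a b
  act_one : ∀ a, act 1 a = a
  act_mul : ∀ s t a, act (s * t) a = act s (act t a)

/-- The four-level carrier, `t > x > x' > t'`, the parts `x'` and `t'` being order-reversed. -/
inductive Lv (T X : Type u)
  | t (a : T)
  | x (a : X)
  | x' (a : X)
  | t' (a : T)

namespace Lv

variable {T X : Type u} [Lattice T] [Lattice X]

protected def le : Lv T X → Lv T X → Prop
  | t a, t b => a ≤ b
  | t _, x _ => False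
  | t _, x' _ => False
  | t _, t' _ => False
  | x _, t _ => True
  | x a, x b => a ≤ b
  | x _, x' _ => False
  | x _, t' _ => False
  | x' _, t _ => True
  | x' _, x _ => True
  | x' a, x' b => b ≤ a
  | x' _, t' _ => False
  | t' _, t _ => True
  | t' _, x _ => True
  | t' _, x' _ => True
  | t' a, t' b => b ≤ a

instance : LE (Lv T X) := ⟨Lv.le⟩

@[simp] theorem le_tt (a b : T) : (t a : Lv T X) ≤ t b ↔ a ≤ b := Iff.rfl
@[simp] theorem le_tx (a : T) (b : X) : (t a : Lv T X) ≤ x b ↔ False := Iff.rfl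
@[simp] theorem le_tx' (a : T) (b : X) : (t a : Lv T X) ≤ x' b ↔ False := Iff.rfl
@[simp] theorem le_tt' (a b : T) : (t a : Lv T X) ≤ t' b ↔ False := Iff.rfl
@[simp] theorem le_xt (a : X) (b : T) : (x a : Lv T X) ≤ t b ↔ True := Iff.rfl
@[simp] theorem le_xx (a b : X) : (x a : Lv T X) ≤ x b ↔ a ≤ b := Iff.rfl
@[simp] theorem le_xx' (a b : X) : (x a : Lv T X) ≤ x' b ↔ False := Iff.rfl
@[simp] theorem le_xt' (a : X) (b : T) : (x a : Lv T X) ≤ t' b ↔ False := Iff.rfl
@[simp] theorem le_x't (a : X) (b : T) : (x' a : Lv T X) ≤ t b ↔ True := Iff.rfl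
@[simp] theorem le_x'x (a b : X) : (x' a : Lv T X) ≤ x b ↔ True := Iff.rfl
@[simp] theorem le_x'x' (a b : X) : (x' a : Lv T X) ≤ x' b ↔ b ≤ a := Iff.rfl
@[simp] theorem le_x't' (a : X) (b : T) : (x' a : Lv T X) ≤ t' b ↔ False := Iff.rfl
@[simp] theorem le_t't (a b : T) : (t' a : Lv T X) ≤ t b ↔ True := Iff.rfl
@[simp] theorem le_t'x (a : T) (b : X) : (t' a : Lv T X) ≤ x b ↔ True := Iff.rfl
@[simp] theorem le_t'x' (a : T) (b : X) : (t' a : Lv T X) ≤ x' b ↔ True := Iff.rfl
@[simp] theorem le_t't' (a b : T) : (t' a : Lv T X) ≤ t' b ↔ b ≤ a := Iff.rfl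

protected def inf : Lv T X → Lv T X → Lv T X
  | t a, t b => t (a ⊓ b)
  | t _, x b => x b
  | t _, x' b => x' b
  | t _, t' b => t' b
  | x a, t _ => x a
  | x a, x b => x (a ⊓ b)
  | x _, x' b => x' b
  | x _, t' b => t' b
  | x' a, t _ => x' a
  | x' a, x _ => x' a
  | x' a, x' b => x' (a ⊔ b)
  | x' _, t' b => t' b
  | t' a, t _ => t' a
  | t' a, x _ => t' a
  | t' a, x' _ => t' a
  | t' a, t' b => t' (a ⊔ b)

protected def sup : Lv T X → Lv T X → Lv T X
  | t a, t b => t (a ⊔ b)
  | t a, x _ => t a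
  | t a, x' _ => t a
  | t a, t' _ => t a
  | x _, t b => t b
  | x a, x b => x (a ⊔ b)
  | x a, x' _ => x a
  | x a, t' _ => x a
  | x' _, t b => t b
  | x' _, x b => x b
  | x' a, x' b => x' (a ⊓ b)
  | x' a, t' _ => x' a
  | t' _, t b => t b
  | t' _, x b => x b
  | t' _, x' b => x' b
  | t' a, t' b => t' (a ⊓ b)

instance : Lattice (Lv T X) where
  le := Lv.le
  le_refl a := by rcases a with a | a | a | a <;> exact le_refl a
  le_trans a b c := by
    rcases a with a | a | a | a <;> rcases b with b | b | b | b <;> rcases c with c | c | c | c <;>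
      simp only [Lv.le, imp_false, not_false_eq_true, imp_true_iff, false_implies, true_implies,
        not_true_eq_false] <;>
      first
        | exact fun h1 h2 => le_trans h1 h2
        | exact fun h1 h2 => le_trans h2 h1
  le_antisymm a b := by
    rcases a with a | a | a | a <;> rcases b with b | b | b | b <;>
      simp only [Lv.le, imp_false, not_false_eq_true, imp_true_iff, false_implies, true_implies,
        not_true_eq_false] <;>
      first
        | exact fun h1 h2 => congrArg _ (le_antisymm h1 h2)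
        | exact fun h1 h2 => congrArg _ (le_antisymm h2 h1)
  inf := Lv.inf
  sup := Lv.sup
  inf_le_left a b := by
    rcases a with a | a | a | a <;> rcases b with b | b | b | b <;> simp [Lv.le, Lv.inf]
  inf_le_right a b := by
    rcases a with a | a | a | a <;> rcases b with b | b | b | b <;> simp [Lv.le, Lv.inf]
  le_inf a b c := by
    rcases a with a | a | a | a <;> rcases b with b | b | b | b <;> rcases c with c | c | c | c <;>
      simp +contextual [Lv.le, Lv.inf]
  le_sup_left a b := by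
    rcases a with a | a | a | a <;> rcases b with b | b | b | b <;> simp [Lv.le, Lv.sup]
  le_sup_right a b := by
    rcases a with a | a | a | a <;> rcases b with b | b | b | b <;> simp [Lv.le, Lv.sup]
  sup_le a b c := by
    rcases a with a | a | a | a <;> rcases b with b | b | b | b <;> rcases c with c | c | c | c <;>
      simp +contextual [Lv.le, Lv.sup]

end Lv

namespace ActData

variable {T X : Type u} [Lattice T] [CommMonoid T] [Lattice X] (D : ActData T X)

theorem timp_timp (a b c : T) : D.timp a (D.timp b c) = D.timp (a * b) c := by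
  apply eq_of_forall_le_iff
  intro z
  rw [← D.timp_iff, ← D.timp_iff, ← D.timp_iff, ← mul_assoc, mul_comm b a]

theorem ra_ra (a b : T) (c : X) : D.ra a (D.ra b c) = D.ra (a * b) c := by
  apply eq_of_forall_le_iff
  intro z
  rw [← D.act_ra, ← D.act_ra, ← D.act_ra, mul_comm a b, D.act_mul]

theorem timp_rb (s : T) (a b : X) : D.timp s (D.rb a b) = D.rb (D.act s a) b := by
  apply eq_of_forall_le_iff
  intro z
  rw [← D.timp_iff, ← D.act_rb, ← D.act_rb, mul_comm s z, D.act_mul]

theorem rb_ra (s : T) (a b : X) : D.rb a (D.ra s b) = D.rb (D.act s a) b := by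
  apply eq_of_forall_le_iff
  intro z
  rw [← D.act_rb, ← D.act_ra, ← D.act_rb, ← D.act_mul, ← D.act_mul, mul_comm]

theorem act_bot (s : T) : D.act s D.xbot = D.xbot :=
  le_antisymm ((D.act_ra _ _ _).2 (D.xbot_le _)) (D.xbot_le _)

theorem rb_bot (b : X) : D.rb D.xbot b = D.ttop :=
  le_antisymm (D.le_ttop _) ((D.act_rb _ _ _).1 (by rw [D.act_bot]; exact D.xbot_le _))

theorem timp_top (s : T) : D.timp s D.ttop = D.ttop :=
  le_antisymm (D.le_ttop _) ((D.timp_iff _ _ _).1 (D.le_ttop _))

theorem one_le_timp (a b : T) : 1 ≤ D.timp a b ↔ a ≤ b := by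
  rw [← D.timp_iff, mul_one]

theorem one_le_rb (a b : X) : 1 ≤ D.rb a b ↔ a ≤ b := by
  rw [← D.act_rb, D.act_one]

theorem timp_one (a : T) : D.timp 1 a = a := by
  apply eq_of_forall_le_iff
  intro z
  rw [← D.timp_iff, one_mul]

theorem ra_one (a : X) : D.ra 1 a = a := by
  apply eq_of_forall_le_iff
  intro z
  rw [← D.act_ra, D.act_one]

end ActData

namespace Lv

section mul

variable {T X : Type u} [Lattice T] [CommMonoid T] [Lattice X] (D : ActData T X)

/-- Multiplication. -/
def mul : Lv T X → Lv T X → Lv T X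
  | t a, t b => t (a * b)
  | t a, x b => x (D.act a b)
  | t a, x' b => x' (D.ra a b)
  | t a, t' b => t' (D.timp a b)
  | x a, t b => x (D.act b a)
  | x _, x _ => x D.xbot
  | x a, x' b => t' (D.rb a b)
  | x _, t' _ => t' D.ttop
  | x' a, t b => x' (D.ra b a)
  | x' a, x b => t' (D.rb b a)
  | x' _, x' _ => t' D.ttop
  | x' _, t' _ => t' D.ttop
  | t' a, t b => t' (D.timp b a)
  | t' _, x _ => t' D.ttop
  | t' _, x' _ => t' D.ttop
  | t' _, t' _ => t' D.ttop

/-- Negation. -/
def ng : Lv T X → Lv T X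
  | t a => t' a
  | x a => x' a
  | x' a => x a
  | t' a => t a

theorem mul_comm' (a b : Lv T X) : mul D a b = mul D b a := by
  rcases a with a | a | a | a <;> rcases b with b | b | b | b <;> simp [mul, mul_comm]

theorem mul_assoc' (a b c : Lv T X) : mul D (mul D a b) c = mul D a (mul D b c) := by
  rcases a with a | a | a | a <;> rcases b with b | b | b | b <;> rcases c with c | c | c | c <;>
    simp [mul, D.timp_timp, D.ra_ra, D.timp_rb, D.rb_ra, D.act_bot, D.rb_bot,
      D.timp_top, ← D.act_mul, mul_comm, mul_left_comm]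

theorem one_mul' (a : Lv T X) : mul D (t 1) a = a := by
  rcases a with a | a | a | a <;> simp [mul, D.timp_one, D.ra_one, D.act_one]

theorem le_iff_mul_ng (a b : Lv T X) : a ≤ b ↔ mul D a (ng b) ≤ t' 1 := by
  rcases a with a | a | a | a <;> rcases b with b | b | b | b <;>
    simp [mul, ng, D.one_le_timp, D.one_le_rb, D.le_ttop]

theorem ng_ng (a : Lv T X) : ng (ng a) = a := by
  rcases a with a | a | a | a <;> rfl

/-- The involutive commutative residuated lattice. -/
@[reducible] def inCRL : InCRL (Lv T X) where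
  mul := mul D
  one := t 1
  mul_assoc := mul_assoc' D
  one_mul := one_mul' D
  mul_one a := by
    change mul D a (t 1) = a
    rw [mul_comm', one_mul']
  mul_comm := mul_comm' D
  imp a b := ng (mul D a (ng b))
  fal := t' 1
  mul_le_iff a b c := by
    change mul D a b ≤ c ↔ b ≤ ng (mul D a (ng c))
    rw [le_iff_mul_ng D, le_iff_mul_ng D b, ng_ng, mul_comm' D a b, mul_assoc']
  imp_imp_fal a := by
    change ng (mul D (ng (mul D a (t 1))) (t 1)) = a
    rw [mul_comm' D _ (t 1), one_mul', mul_comm' D _ (t 1), one_mul', ng_ng]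

theorem neg_eq (a : Lv T X) : @neg _ (inCRL D) a = ng a := by
  change ng (mul D a (t 1)) = ng a
  rw [mul_comm' D _ (t 1), one_mul']

theorem plus_eq (a b : Lv T X) : @plus _ (inCRL D) a b = ng (mul D (ng a) (ng b)) := by
  unfold plus
  rw [neg_eq, neg_eq, neg_eq]
  rfl

theorem pow_t (a : T) (k : ℕ) :
    letI := inCRL D; (t a : Lv T X) ^ k = t (a ^ k) := by
  let _ := inCRL D
  change (t a : Lv T X) ^ k = t (a ^ k)
  induction k with
  | zero => rw [pow_zero, pow_zero]; rfl
  | succ k ih => rw [pow_succ, ih, pow_succ]; rfl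

theorem pow_le_pow {m n : ℕ} (hm : 2 ≤ m) (hn : 1 ≤ n) (hT : ∀ a : T, a ^ m ≤ a ^ n)
    (a : Lv T X) : letI := inCRL D; a ^ m ≤ a ^ n := by
  let _ := inCRL D
  change a ^ m ≤ a ^ n
  have bot : ∀ b : Lv T X, t' D.ttop ≤ b := by
    intro b
    rcases b with b | b | b | b <;> simp [D.le_ttop]
  rcases a with a | a | a | a
  · have e1 : (t a : Lv T X) ^ m = t (a ^ m) := pow_t D a m
    have e2 : (t a : Lv T X) ^ n = t (a ^ n) := pow_t D a n
    rw [e1, e2, le_tt]
    exact hT a
  · have e1 : ∀ k, ∃ b, (x a : Lv T X) ^ (k + 1) = x b := by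
      intro k
      induction k with
      | zero => exact ⟨a, by rw [zero_add, pow_one]⟩
      | succ k ih =>
        obtain ⟨b, hb⟩ := ih
        exact ⟨D.xbot, by rw [pow_succ, hb]; rfl⟩
    obtain ⟨k, rfl⟩ : ∃ k, m = k + 2 := ⟨m - 2, by omega⟩
    obtain ⟨l, rfl⟩ : ∃ l, n = l + 1 := ⟨n - 1, by omega⟩
    obtain ⟨b, hb⟩ := e1 k
    obtain ⟨c, hc⟩ := e1 l
    rw [hc, pow_succ, hb]
    exact D.xbot_le c
  · obtain ⟨k, rfl⟩ : ∃ k, m = k + 2 := ⟨m - 2, by omega⟩
    have : (x' a : Lv T X) ^ (k + 2) ≤ t' D.ttop := by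
      rw [pow_add, pow_two]
      have e : (x' a : Lv T X) * x' a = t' D.ttop := rfl
      rw [e]
      rcases (x' a : Lv T X) ^ k with b | b | b | b
      · change t' (D.timp b D.ttop) ≤ _
        rw [D.timp_top]
      · exact le_refl _
      · exact le_refl _
      · exact le_refl _
    exact this.trans (bot _)
  · obtain ⟨k, rfl⟩ : ∃ k, m = k + 2 := ⟨m - 2, by omega⟩
    have : (t' a : Lv T X) ^ (k + 2) ≤ t' D.ttop := by
      rw [pow_add, pow_two]
      have e : (t' a : Lv T X) * t' a = t' D.ttop := rfl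
      rw [e]
      rcases (t' a : Lv T X) ^ k with b | b | b | b
      · change t' (D.timp b D.ttop) ≤ _
        rw [D.timp_top]
      · exact le_refl _
      · exact le_refl _
      · exact le_refl _
    exact this.trans (bot _)

end mul

end Lv

end Pool.Agent.Helper48.Knotted
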