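import Pool.Agent.Helper48.Knotted.Lv

/-!
# Nuclei: the residuated lattice of closed sets, and a context on which it acts
-/

namespace Pool.Agent.Helper48.Knotted

universe u

section FCsec

variable {M : Type u} [AddCommMonoid M]

/-- Fully closed sets. -/
def FC (m n : ℕ) (S : Set M) : Prop :=
  ∀ (s : M) (X : Fin m → M), (∀ f : Fin n → Fin m, s + ∑ j, X (f j) ∈ S) → s + ∑ i, X i ∈ S

/-- Restrictedly closed sets. -/
def RC (m n : ℕ) (S : Set M) : Prop :=
  ∀ (s : M) (X : Fin m → M), s ≠ 0 → (∀ f : Fin n → Fin m, s + ∑ j, X (f j) ∈ S) →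
    s + ∑ i, X i ∈ S

variable {m n : ℕ}

theorem FC.rc {S : Set M} (h : FC m n S) : RC m n S := fun s X _ hf => h s X hf

theorem FC.all {ι : Sort*} {p : ι → M → Prop} (h : ∀ i, FC m n {z | p i z}) :
    FC m n {z | ∀ i, p i z} := by
  intro s X hf i
  exact h i s X fun f => hf f i

theorem RC.all {ι : Sort*} {p : ι → M → Prop} (h : ∀ i, RC m n {z | p i z}) :
    RC m n {z | ∀ i, p i z} := by
  intro s X hs hf i
  exact h i s X hs fun f => hf f i

theorem FC.and {p q : M → Prop} (h1 : FC m n {z | p z}) (h2 : FC m n {z | q z}) :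
    FC m n {z | p z ∧ q z} := by
  intro s X hf
  exact ⟨h1 s X fun f => (hf f).1, h2 s X fun f => (hf f).2⟩

theorem FC.inter {S T : Set M} (h1 : FC m n S) (h2 : FC m n T) : FC m n (S ∩ T) :=
  FC.and h1 h2

theorem RC.inter {S T : Set M} (h1 : RC m n S) (h2 : RC m n T) : RC m n (S ∩ T) := by
  intro s X hs hf
  exact ⟨h1 s X hs fun f => (hf f).1, h2 s X hs fun f => (hf f).2⟩

theorem FC.translate {S : Set M} (h : FC m n S) (u : M) : FC m n {z | z + u ∈ S} := by
  intro s X hf
  change s + ∑ i, X i + u ∈ S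
  rw [add_right_comm]
  apply h
  intro f
  rw [add_right_comm]
  exact hf f

theorem RC.translate {S : Set M} (h : RC m n S) (h0 : ∀ a b : M, a + b = 0 → a = 0 ∧ b = 0)
    (u : M) : RC m n {z | z + u ∈ S} := by
  intro s X hs hf
  change s + ∑ i, X i + u ∈ S
  rw [add_right_comm]
  apply h _ _ (fun e => hs (h0 _ _ e).1)
  intro f
  rw [add_right_comm]
  exact hf f

theorem RC.translate_fc {S : Set M} (h : RC m n S) (h0 : ∀ a b : M, a + b = 0 → a = 0 ∧ b = 0)
    {u : M} (hu : u ≠ 0) : FC m n {z | z + u ∈ S} := by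
  intro s X hf
  change s + ∑ i, X i + u ∈ S
  rw [add_right_comm]
  apply h _ _ (fun e => hu (h0 _ _ e).2)
  intro f
  rw [add_right_comm]
  exact hf f

theorem FC.univ' : FC m n (Set.univ : Set M) := fun _ _ _ => trivial

theorem FC.empty' (hm : 1 ≤ m) : FC m n (∅ : Set M) := by
  intro s X hf
  exact (hf fun _ => ⟨0, hm⟩).elim

theorem FC.const (hm : 1 ≤ m) (p : Prop) : FC m n {_z : M | p} := by
  intro s X hf
  exact hf fun _ => ⟨0, hm⟩

/-- The closure of a set. -/
def cl (m n : ℕ) (A : Set M) : Set M := {z | ∀ S : Set M, FC m n S → A ⊆ S → z ∈ S}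

theorem cl_fc (A : Set M) : FC m n (cl m n A) :=
  FC.all fun _ => FC.all fun h => FC.all fun _ => h

theorem subset_cl (A : Set M) : A ⊆ cl m n A := fun _ hz _ _ hA => hA hz

theorem cl_subset {A S : Set M} (hS : FC m n S) (h : A ⊆ S) : cl m n A ⊆ S :=
  fun _ hz => hz S hS h

theorem cl_subset_iff {A S : Set M} (hS : FC m n S) : cl m n A ⊆ S ↔ A ⊆ S :=
  ⟨fun h => (subset_cl A).trans h, cl_subset hS⟩

/-- The restricted closure of a set. -/
def rcl (m n : ℕ) (A : Set M) : Set M := {z | ∀ S : Set M, RC m n S → A ⊆ S → z ∈ S}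

theorem rcl_rc (A : Set M) : RC m n (rcl m n A) :=
  RC.all fun _ => RC.all fun h => RC.all fun _ => h

theorem subset_rcl (A : Set M) : A ⊆ rcl m n A := fun _ hz _ _ hA => hA hz

theorem rcl_subset {A S : Set M} (hS : RC m n S) (h : A ⊆ S) : rcl m n A ⊆ S :=
  fun _ hz => hz S hS h

end FCsec

/-- The type of fully closed sets. -/
structure TT (m n : ℕ) (M : Type u) [AddCommMonoid M] : Type u where
  /-- the underlying set -/
  val : Set M
  /-- closedness -/
  prop : FC m n val

namespace TT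

variable {m n : ℕ} {M : Type u} [AddCommMonoid M]

theorem ext' {S T : TT m n M} (h : S.1 = T.1) : S = T := by
  cases S; cases T; cases h; rfl

instance : Lattice (TT m n M) where
  le S T := S.1 ⊆ T.1
  le_refl _ _ h := h
  le_trans _ _ _ h1 h2 := h1.trans h2
  le_antisymm _ _ h1 h2 := ext' (h1.antisymm h2)
  inf S T := ⟨S.1 ∩ T.1, S.2.inter T.2⟩
  sup S T := ⟨cl m n (S.1 ∪ T.1), cl_fc _⟩
  inf_le_left _ _ _ h := h.1
  inf_le_right _ _ _ h := h.2
  le_inf _ _ _ h1 h2 _ h := ⟨h1 h, h2 h⟩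
  le_sup_left _ _ _ h := subset_cl _ (Or.inl h)
  le_sup_right _ _ _ h := subset_cl _ (Or.inr h)
  sup_le _ _ C h1 h2 := cl_subset C.2 (Set.union_subset h1 h2)

theorem le_def {S T : TT m n M} : S ≤ T ↔ S.1 ⊆ T.1 := Iff.rfl

/-- The product of closed sets. -/
def mul' (S T : TT m n M) : TT m n M := ⟨cl m n (Set.image2 (· + ·) S.1 T.1), cl_fc _⟩

/-- The unit. -/
def one' : TT m n M := ⟨cl m n {0}, cl_fc _⟩

/-- The residual. -/
def imp' (S T : TT m n M) : TT m n M :=
  ⟨{z | ∀ s ∈ S.1, z + s ∈ T.1}, FC.all fun s => FC.all fun _ => T.2.translate s⟩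

/-- The top. -/
def top' : TT m n M := ⟨Set.univ, FC.univ'⟩

theorem mul'_le {S T C : TT m n M} : mul' S T ≤ C ↔ ∀ a ∈ S.1, ∀ b ∈ T.1, a + b ∈ C.1 := by
  rw [le_def]
  change cl m n _ ⊆ _ ↔ _
  rw [cl_subset_iff C.2, Set.image2_subset_iff]

theorem one'_le {C : TT m n M} : one' ≤ C ↔ 0 ∈ C.1 := by
  rw [le_def]
  change cl m n _ ⊆ _ ↔ _
  rw [cl_subset_iff C.2, Set.singleton_subset_iff]

theorem mul'_comm (S T : TT m n M) : mul' S T = mul' T S := by
  apply eq_of_forall_ge_iff
  intro C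
  rw [mul'_le, mul'_le]
  constructor
  · intro h a ha b hb
    rw [add_comm]
    exact h b hb a ha
  · intro h a ha b hb
    rw [add_comm]
    exact h b hb a ha

theorem mul'_imp' {S T C : TT m n M} : mul' S T ≤ C ↔ T ≤ imp' S C := by
  rw [mul'_le]
  constructor
  · intro h b hb a ha
    rw [add_comm]
    exact h a ha b hb
  · intro h a ha b hb
    rw [add_comm]
    exact h hb a ha

theorem mul'_assoc (S T U : TT m n M) : mul' (mul' S T) U = mul' S (mul' T U) := by
  apply eq_of_forall_ge_iff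
  intro C
  rw [mul'_comm (mul' S T) U, mul'_imp' (S := U), mul'_le, mul'_imp' (S := S), mul'_le]
  constructor
  · intro h b hb c hc a ha
    have := h a ha b hb c hc
    rw [add_comm, ← add_assoc]
    exact this
  · intro h a ha b hb c hc
    have := h b hb c hc a ha
    rw [add_assoc, add_comm]
    exact this

theorem one'_mul' (S : TT m n M) : mul' one' S = S := by
  apply eq_of_forall_ge_iff
  intro C
  rw [mul'_comm, mul'_imp', one'_le]
  constructor
  · intro h s hs
    have := h s hs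
    rwa [zero_add] at this
  · intro h s hs
    rw [zero_add]
    exact h hs

instance : CommMonoid (TT m n M) where
  mul := mul'
  one := one'
  mul_assoc := mul'_assoc
  one_mul := one'_mul'
  mul_one S := by
    change mul' S one' = S
    rw [mul'_comm, one'_mul']
  mul_comm := mul'_comm

theorem mul_le {S T C : TT m n M} : S * T ≤ C ↔ ∀ a ∈ S.1, ∀ b ∈ T.1, a + b ∈ C.1 := mul'_le

theorem one_le {C : TT m n M} : (1 : TT m n M) ≤ C ↔ 0 ∈ C.1 := one'_le

theorem mul_val (S T : TT m n M) : (S * T).1 = cl m n (Set.image2 (· + ·) S.1 T.1) := rfl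

theorem one_val : (1 : TT m n M).1 = cl m n {0} := rfl

theorem add_mem_mul {S T : TT m n M} {a b : M} (ha : a ∈ S.1) (hb : b ∈ T.1) :
    a + b ∈ (S * T).1 := mul_le.1 le_rfl a ha b hb

theorem zero_mem_one : (0 : M) ∈ (1 : TT m n M).1 := one_le.1 le_rfl

theorem sum_mem_pow (S : TT m n M) : ∀ (k : ℕ) (X : Fin k → M), (∀ i, X i ∈ S.1) →
    ∑ i, X i ∈ (S ^ k).1 := by
  intro k
  induction k with
  | zero =>
    intro X _
    rw [pow_zero, Finset.univ_eq_empty, Finset.sum_empty]
    exact zero_mem_one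
  | succ k ih =>
    intro X hX
    rw [Fin.sum_univ_castSucc, pow_succ]
    exact add_mem_mul (ih _ fun i => hX _) (hX _)

theorem pow_le (S C : TT m n M) : ∀ (k : ℕ) (w : M), (∀ X : Fin k → M, (∀ i, X i ∈ S.1) →
    w + ∑ i, X i ∈ C.1) → ∀ z ∈ (S ^ k).1, w + z ∈ C.1 := by
  intro k
  induction k with
  | zero =>
    intro w h z hz
    rw [pow_zero] at hz
    have h1 := h (fun i => i.elim0) (fun i => i.elim0)
    rw [Finset.univ_eq_empty, Finset.sum_empty] at h1
    have h2 : (1 : TT m n M) ≤ ⟨{z | z + w ∈ C.1}, C.2.translate w⟩ := by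
      rw [one_le]
      change 0 + w ∈ C.1
      rw [add_comm]
      exact h1
    have := h2 hz
    change z + w ∈ C.1 at this
    rwa [add_comm] at this
  | succ k ih =>
    intro w h z hz
    rw [pow_succ] at hz
    have h2 : S ^ k * S ≤ ⟨{z | z + w ∈ C.1}, C.2.translate w⟩ := by
      rw [mul_le]
      intro a ha b hb
      change a + b + w ∈ C.1
      have := ih (w + b) (by
        intro X hX
        have := h (Fin.snoc X b) (by
          intro i
          refine Fin.lastCases ?_ ?_ i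
          · rw [Fin.snoc_last]; exact hb
          · intro j
            rw [Fin.snoc_castSucc]; exact hX j)
        rw [Fin.sum_univ_castSucc] at this
        simp only [Fin.snoc_castSucc, Fin.snoc_last] at this
        rw [add_assoc, add_comm b, ]
        exact this) a ha
      rw [add_comm, ← add_assoc, add_right_comm]
      exact this
    have := h2 hz
    change z + w ∈ C.1 at this
    rwa [add_comm] at this

theorem pow_le_pow (S : TT m n M) : S ^ m ≤ S ^ n := by
  intro z hz
  have := pow_le S (S ^ n) m 0 (by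
    intro X hX
    apply (S ^ n).2
    intro f
    rw [zero_add]
    exact sum_mem_pow S n _ fun j => hX _) z hz
  rwa [zero_add] at this

end TT

/-! ### The context -/

section Ctx

variable {m n : ℕ} {M : Type u} [AddCommMonoid M] {κ : Type u}

/-- The attributes of a set of objects. -/
def up (Z : κ → κ → Set M) (S : Set (κ × M)) : Set (κ × M) :=
  {a | ∀ o ∈ S, o.2 + a.2 ∈ Z o.1 a.1}

/-- The objects of a set of attributes. -/
def dn (Z : κ → κ → Set M) (A : Set (κ × M)) : Set (κ × M) :=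
  {o | ∀ a ∈ A, o.2 + a.2 ∈ Z o.1 a.1}

/-- Closed sets of objects. -/
structure XX (Z : κ → κ → Set M) : Type u where
  /-- the underlying set -/
  val : Set (κ × M)
  /-- closedness -/
  prop : dn Z (up Z val) ⊆ val

theorem subset_dn_up (Z : κ → κ → Set M) (S : Set (κ × M)) : S ⊆ dn Z (up Z S) :=
  fun _ ho _ ha => ha _ ho

theorem up_anti {Z : κ → κ → Set M} {S T : Set (κ × M)} (h : S ⊆ T) : up Z T ⊆ up Z S :=
  fun _ ha _ ho => ha _ (h ho)

theorem dn_anti {Z : κ → κ → Set M} {S T : Set (κ × M)} (h : S ⊆ T) : dn Z T ⊆ dn Z S :=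
  fun _ ha _ ho => ha _ (h ho)

theorem subset_up_dn (Z : κ → κ → Set M) (S : Set (κ × M)) : S ⊆ up Z (dn Z S) :=
  fun _ ha _ ho => ho _ ha

theorem up_dn_up (Z : κ → κ → Set M) (S : Set (κ × M)) : up Z (dn Z (up Z S)) = up Z S :=
  (up_anti (subset_dn_up Z S)).antisymm (subset_up_dn Z _)

/-- The closed set generated by a set of objects. -/
def gen (Z : κ → κ → Set M) (A : Set (κ × M)) : XX Z :=
  ⟨dn Z (up Z A), by rw [up_dn_up]⟩

theorem gen_subset {Z : κ → κ → Set M} {A : Set (κ × M)} {S : XX Z} :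
    (gen Z A).1 ⊆ S.1 ↔ A ⊆ S.1 :=
  ⟨fun h => (subset_dn_up Z A).trans h,
   fun h => (dn_anti (up_anti h)).trans S.2⟩

theorem XX.ext' {Z : κ → κ → Set M} {S T : XX Z} (h : S.1 = T.1) : S = T := by
  cases S; cases T; cases h; rfl

instance (Z : κ → κ → Set M) : Lattice (XX Z) where
  le S T := S.1 ⊆ T.1
  le_refl _ _ h := h
  le_trans _ _ _ h1 h2 := h1.trans h2
  le_antisymm _ _ h1 h2 := XX.ext' (h1.antisymm h2)
  inf S T := ⟨S.1 ∩ T.1, fun _ ho =>
    ⟨S.2 (dn_anti (up_anti Set.inter_subset_left) ho),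
     T.2 (dn_anti (up_anti Set.inter_subset_right) ho)⟩⟩
  sup S T := gen Z (S.1 ∪ T.1)
  inf_le_left _ _ _ h := h.1
  inf_le_right _ _ _ h := h.2
  le_inf _ _ _ h1 h2 _ h := ⟨h1 h, h2 h⟩
  le_sup_left _ _ _ h := subset_dn_up _ _ (Or.inl h)
  le_sup_right _ _ _ h := subset_dn_up _ _ (Or.inr h)
  sup_le _ _ _ h1 h2 := gen_subset.2 (Set.union_subset h1 h2)

theorem XX.le_def {Z : κ → κ → Set M} {S T : XX Z} : S ≤ T ↔ S.1 ⊆ T.1 := Iff.rfl

/-- The action. -/
def actX (Z : κ → κ → Set M) (t : TT m n M) (S : XX Z) : XX Z :=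
  gen Z {o | ∃ s ∈ t.1, ∃ o' ∈ S.1, o = (o'.1, o'.2 + s)}

theorem actX_le {Z : κ → κ → Set M} {t : TT m n M} {S T : XX Z} :
    actX Z t S ≤ T ↔ ∀ s ∈ t.1, ∀ o ∈ S.1, (o.1, o.2 + s) ∈ T.1 := by
  rw [XX.le_def]
  unfold actX
  rw [gen_subset]
  constructor
  · intro h s hs o ho
    exact h ⟨s, hs, o, ho, rfl⟩
  · rintro h _ ⟨s, hs, o, ho, rfl⟩
    exact h s hs o ho

/-- The right adjoint of the action. -/
def raX (Z : κ → κ → Set M) (t : TT m n M) (T : XX Z) : XX Z :=
  ⟨{o | ∀ s ∈ t.1, (o.1, o.2 + s) ∈ T.1}, by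
    intro o ho s hs
    apply T.2
    intro a ha
    change o.2 + s + a.2 ∈ Z o.1 a.1
    rw [add_assoc]
    apply ho (a.1, s + a.2)
    intro o' ho'
    change o'.2 + (s + a.2) ∈ Z o'.1 a.1
    rw [← add_assoc]
    exact ha _ (ho' s hs)⟩

/-- The second right adjoint of the action. -/
def rbX (Z : κ → κ → Set M) (hZ : ∀ k l, FC m n (Z k l)) (S T : XX Z) : TT m n M :=
  ⟨{s | ∀ o ∈ S.1, (o.1, o.2 + s) ∈ T.1}, by
    refine FC.all fun o => FC.all fun _ => ?_
    have : {s : M | (o.1, o.2 + s) ∈ T.1} =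
        {s | ∀ a ∈ up Z T.1, s + (o.2 + a.2) ∈ Z o.1 a.1} := by
      ext s
      constructor
      · intro h a ha
        have := ha _ h
        change o.2 + s + a.2 ∈ Z o.1 a.1 at this
        have e : s + (o.2 + a.2) = o.2 + s + a.2 := by rw [← add_assoc, add_comm s]
        rw [e]
        exact this
      · intro h
        apply T.2
        intro a ha
        have := h a ha
        change o.2 + s + a.2 ∈ Z o.1 a.1
        have e : s + (o.2 + a.2) = o.2 + s + a.2 := by rw [← add_assoc, add_comm s]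
        rw [← e]
        exact this
    rw [this]
    exact FC.all fun a => FC.all fun _ => (hZ _ _).translate _⟩

theorem actX_raX {Z : κ → κ → Set M} {t : TT m n M} {S T : XX Z} :
    actX Z t S ≤ T ↔ S ≤ raX Z t T := by
  rw [actX_le]
  exact ⟨fun h o ho s hs => h s hs o ho, fun h s hs o ho => h ho s hs⟩

theorem actX_rbX {Z : κ → κ → Set M} (hZ : ∀ k l, FC m n (Z k l)) {t : TT m n M} {S T : XX Z} :
    actX Z t S ≤ T ↔ t ≤ rbX Z hZ S T := by
  rw [actX_le]
  exact ⟨fun h s hs o ho => h s hs o ho, fun h s hs o ho => h hs o ho⟩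

/-- The data for the four-level algebra. -/
def ctxData (Z : κ → κ → Set M) (hZ : ∀ k l, FC m n (Z k l)) : ActData (TT m n M) (XX Z) where
  timp := TT.imp'
  ttop := TT.top'
  xbot := gen Z ∅
  act := actX Z
  ra := raX Z
  rb := rbX Z hZ
  le_ttop _ := Set.subset_univ _
  xbot_le _ := gen_subset.2 (Set.empty_subset _)
  timp_iff _ _ _ := TT.mul'_imp'
  act_ra _ _ _ := actX_raX
  act_rb _ _ _ := actX_rbX hZ
  act_one S := by
    apply eq_of_forall_ge_iff
    intro T
    rw [actX_rbX hZ, TT.one_le]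
    change (∀ o ∈ S.1, (o.1, o.2 + 0) ∈ T.1) ↔ _
    simp only [add_zero]
    exact ⟨fun h o ho => h o ho, fun h o ho => h ho⟩
  act_mul s t S := by
    apply eq_of_forall_ge_iff
    intro T
    rw [actX_rbX hZ, TT.mul_le, actX_raX, actX_le]
    constructor
    · intro h b hb o ho a ha
      have := h a ha b hb o ho
      change (o.1, o.2 + b + a) ∈ T.1
      rw [add_assoc, add_comm b]
      exact this
    · intro h a ha b hb o ho
      have := h b hb o ho a ha
      change (o.1, o.2 + b + a) ∈ T.1 at this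
      rw [add_assoc, add_comm b] at this
      exact this

end Ctx

end Pool.Agent.Helper48.Knotted
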